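import Pool.Agent.H82.KRec.Corner

/-!
The finite periodic sets without corners of side in the digit set.
-/

namespace Pool.Agent.H82.KRec

open Finset

set_option linter.unusedVariables false

/-! ### scales -/

/-- the scales -/
def Lam (m p : ℕ) : ℕ := (72 * (m + 2)) ^ (p ^ 2)

lemma Lam_pos (m i : ℕ) : 0 < Lam m i := by unfold Lam; positivity

lemma Lam_dvd {m i j : ℕ} (h : i < j) : 9 * Lam m i ∣ Lam m j := by
  unfold Lam
  obtain ⟨k, hk⟩ : ∃ k, j ^ 2 = i ^ 2 + (k + 1) := by
    have h1 : i ^ 2 < j ^ 2 := Nat.pow_lt_pow_left h (by norm_num)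
    exact ⟨j ^ 2 - i ^ 2 - 1, by omega⟩
  rw [hk, pow_add, pow_succ]
  exact ⟨(72 * (m + 2)) ^ k * (8 * (m + 2)), by ring⟩

lemma Lam_mono {m i j : ℕ} (h : i ≤ j) : Lam m i ≤ Lam m j := by
  unfold Lam
  exact Nat.pow_le_pow_right (by positivity) (Nat.pow_le_pow_left h 2)

lemma le_Lam (m i : ℕ) : i ≤ Lam m i := by
  unfold Lam
  have h1 : i ≤ i ^ 2 := by nlinarith [Nat.zero_le i, sq_nonneg (i : ℤ)]
  exact h1.trans (Nat.lt_pow_self (by omega)).le

/-- maximal lower part -/
def Rr (m i : ℕ) : ℕ := ∑ j ∈ range i, 4 * Lam m j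

lemma Lam_succ_ge (m i : ℕ) : 40 * (m + 2) * 2 ^ i * Lam m i ≤ Lam m (i + 1) := by
  unfold Lam
  have h1 : (i + 1) ^ 2 = i ^ 2 + (i + (i + 1)) := by ring
  rw [h1, pow_add, pow_add]
  have h2 : 2 ^ i ≤ (72 * (m + 2)) ^ i := Nat.pow_le_pow_left (by omega) i
  have h3 : 40 * (m + 2) ≤ (72 * (m + 2)) ^ (i + 1) := by
    calc 40 * (m + 2) ≤ (72 * (m + 2)) ^ 1 := by rw [pow_one]; omega
      _ ≤ (72 * (m + 2)) ^ (i + 1) := Nat.pow_le_pow_right (by positivity) (by omega)
  calc 40 * (m + 2) * 2 ^ i * (72 * (m + 2)) ^ i ^ 2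
      = (72 * (m + 2)) ^ i ^ 2 * (2 ^ i * (40 * (m + 2))) := by ring
    _ ≤ (72 * (m + 2)) ^ i ^ 2 * ((72 * (m + 2)) ^ i * (72 * (m + 2)) ^ (i + 1)) := by
        apply Nat.mul_le_mul_left
        exact Nat.mul_le_mul h2 h3

lemma Rr_le_Lam_of (m i : ℕ) (h : 4 * (m + 2) * 2 ^ i * Rr m i ≤ Lam m i) : Rr m i ≤ Lam m i := by
  have h1 : 1 ≤ 4 * (m + 2) * 2 ^ i := Nat.one_le_iff_ne_zero.2 (by positivity)
  calc Rr m i = 1 * Rr m i := (one_mul _).symm
    _ ≤ 4 * (m + 2) * 2 ^ i * Rr m i := Nat.mul_le_mul_right _ h1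
    _ ≤ _ := h

lemma Rr_le (m i : ℕ) : 4 * (m + 2) * 2 ^ i * Rr m i ≤ Lam m i := by
  induction i with
  | zero => simp [Rr, Lam]
  | succ i ih =>
    have h1 : Rr m (i + 1) = Rr m i + 4 * Lam m i := by
      unfold Rr
      rw [Finset.sum_range_succ]
    have h2 : Rr m i ≤ Lam m i := Rr_le_Lam_of m i ih
    have h3 : Rr m (i + 1) ≤ 5 * Lam m i := by omega
    calc 4 * (m + 2) * 2 ^ (i + 1) * Rr m (i + 1)
        ≤ 4 * (m + 2) * 2 ^ (i + 1) * (5 * Lam m i) := Nat.mul_le_mul_left _ h3
      _ = 40 * (m + 2) * 2 ^ i * Lam m i := by ring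
      _ ≤ Lam m (i + 1) := Lam_succ_ge m i

lemma Rr_le_Lam (m i : ℕ) : Rr m i ≤ Lam m i := Rr_le_Lam_of m i (Rr_le m i)

/-- digit -/
def dig (m i x : ℕ) : ZMod 9 := ((x / Lam m i : ℕ) : ZMod 9)

def GoodAt (m i x : ℕ) : Prop := x % Lam m i + Rr m i < Lam m i

lemma dig_add (m K i x : ℕ) (s : ℕ → ℕ) (hs : ∀ j, s j ≤ 4) (hi : i < K) (hg : GoodAt m i x) :
    dig m i (x + ∑ j ∈ range K, s j * Lam m j) = dig m i x + (s i : ZMod 9) := by
  have hsplit : ∑ j ∈ range K, s j * Lam m j
      = ∑ j ∈ range i, s j * Lam m j + s i * Lam m i + ∑ j ∈ Ico (i + 1) K, s j * Lam m j := by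
    rw [← Finset.sum_range_succ, Finset.sum_range_add_sum_Ico _ hi]
  have hlow : ∑ j ∈ range i, s j * Lam m j ≤ Rr m i := by
    unfold Rr
    exact Finset.sum_le_sum fun j _ => Nat.mul_le_mul_right _ (hs j)
  have hhigh : 9 * Lam m i ∣ ∑ j ∈ Ico (i + 1) K, s j * Lam m j := by
    apply Finset.dvd_sum
    intro j hj
    rw [Finset.mem_Ico] at hj
    exact Dvd.dvd.mul_left (Lam_dvd (by omega)) _
  obtain ⟨h, hh⟩ := hhigh
  unfold GoodAt at hg
  unfold dig
  have hL := Lam_pos m i
  have e1 : x + ∑ j ∈ range K, s j * Lam m j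
      = (x % Lam m i + ∑ j ∈ range i, s j * Lam m j) +
        Lam m i * (x / Lam m i + s i + 9 * h) := by
    rw [hsplit, hh]
    have := Nat.mod_add_div x (Lam m i)
    nlinarith
  rw [e1, Nat.add_mul_div_left _ _ hL, Nat.div_eq_of_lt (by omega)]
  have h9 : (9 : ZMod 9) = 0 := by decide
  push_cast
  rw [h9]
  ring

lemma dig_mod (m i K x : ℕ) (hi : i < K) : dig m i (x % Lam m K) = dig m i x := by
  obtain ⟨u, hu⟩ := Lam_dvd (m := m) hi
  unfold dig
  have hL := Lam_pos m i
  have e1 : x = x % Lam m K + Lam m i * (9 * (u * (x / Lam m K))) := by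
    have := Nat.mod_add_div x (Lam m K)
    rw [hu] at this ⊢
    nlinarith
  have h9 : (9 : ZMod 9) = 0 := by decide
  conv_rhs => rw [e1, Nat.add_mul_div_left _ _ hL]
  push_cast
  rw [h9]
  ring

/-! ### counting -/

open Classical in
lemma count_bad (L M R : ℕ) (hR : R ≤ L) :
    ((range (L * M)).filter fun k => ¬ (k % L + R < L)).card = M * R := by
  induction M with
  | zero => simp
  | succ M ih =>
    rw [Finset.card_filter] at ih ⊢
    rw [Nat.mul_succ, Finset.sum_range_add, ih]
    have h1 : ∀ y ∈ range L, (if ¬ ((L * M + y) % L + R < L) then 1 else 0)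
        = (if L - R ≤ y then 1 else 0) := by
      intro y hy
      rw [Finset.mem_range] at hy
      rw [Nat.mul_add_mod, Nat.mod_eq_of_lt hy]
      by_cases h : L - R ≤ y
      · rw [if_pos h, if_pos (by omega)]
      · rw [if_neg h, if_neg (by omega)]
    rw [Finset.sum_congr rfl h1, ← Finset.card_filter]
    have h2 : (range L).filter (fun y => L - R ≤ y) = Ico (L - R) L := by
      ext y
      simp only [Finset.mem_filter, Finset.mem_range, Finset.mem_Ico]
      omega
    rw [h2, Nat.card_Ico]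
    have : L - (L - R) = R := by omega
    rw [this]
    ring

def GoodAll (m K x : ℕ) : Prop := ∀ i < K, GoodAt m i x

instance (m K : ℕ) : NeZero (Lam m K) := ⟨(Lam_pos m K).ne'⟩

lemma card_zmod (N : ℕ) [NeZero N] (q : ℕ → Prop) [DecidablePred q]
    [DecidablePred fun x : ZMod N => q x.val] :
    (univ.filter fun x : ZMod N => q x.val).card = ((range N).filter q).card := by
  apply Finset.card_bij (fun x _ => x.val)
  · intro x hx
    rw [Finset.mem_filter] at hx ⊢
    exact ⟨Finset.mem_range.2 (ZMod.val_lt x), hx.2⟩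
  · intro x _ y _ h
    exact ZMod.val_injective N h
  · intro y hy
    rw [Finset.mem_filter, Finset.mem_range] at hy
    refine ⟨(y : ZMod N), ?_, ZMod.val_natCast_of_lt hy.1⟩
    rw [Finset.mem_filter]
    refine ⟨Finset.mem_univ _, ?_⟩
    rw [ZMod.val_natCast_of_lt hy.1]
    exact hy.2

open Classical in
lemma card_bad (m K : ℕ) :
    (((univ.filter fun x : ZMod (Lam m K) => ¬ GoodAll m K x.val).card : ℕ) : ℝ)
      ≤ (1 / (2 * (m + 2))) * (Lam m K : ℝ) := by
  rw [card_zmod (Lam m K) (fun y => ¬ GoodAll m K y)]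
  have h1 : (range (Lam m K)).filter (fun y => ¬ GoodAll m K y) ⊆
      (range K).biUnion fun i => (range (Lam m K)).filter fun y =>
        ¬ (y % Lam m i + Rr m i < Lam m i) := by
    intro y hy
    rw [Finset.mem_filter] at hy
    have h2 := hy.2
    unfold GoodAll at h2
    push Not at h2
    obtain ⟨i, hi, hb⟩ := h2
    rw [Finset.mem_biUnion]
    exact ⟨i, Finset.mem_range.2 hi, Finset.mem_filter.2 ⟨hy.1, hb⟩⟩
  have h2 : ∀ i ∈ range K, ((((range (Lam m K)).filter fun y =>
        ¬ (y % Lam m i + Rr m i < Lam m i)).card : ℕ) : ℝ)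
      ≤ (1 / (4 * (m + 2))) * (Lam m K : ℝ) * (1 / 2 : ℝ) ^ i := by
    intro i hi
    rw [Finset.mem_range] at hi
    obtain ⟨u, hu⟩ := Lam_dvd (m := m) hi
    have h5 : Lam m K = Lam m i * (9 * u) := by rw [hu]; ring
    rw [h5, count_bad (Lam m i) (9 * u) (Rr m i) (Rr_le_Lam m i)]
    have h8 : (4 : ℝ) * (m + 2) * 2 ^ i * Rr m i ≤ Lam m i := by exact_mod_cast Rr_le m i
    have hm : (0 : ℝ) < 4 * (m + 2) := by positivity
    have hp : (0 : ℝ) < 2 ^ i := by positivity
    push_cast
    have h9 : (1 / 2 : ℝ) ^ i = 1 / 2 ^ i := by rw [div_pow, one_pow]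
    rw [h9]
    have h10 : (Rr m i : ℝ) ≤ (Lam m i : ℝ) / (4 * (m + 2) * 2 ^ i) := by
      rw [le_div_iff₀ (by positivity)]
      linarith
    have h11 : (0 : ℝ) ≤ 9 * u := by positivity
    calc (9 * (u : ℝ)) * Rr m i ≤ 9 * u * ((Lam m i : ℝ) / (4 * (m + 2) * 2 ^ i)) :=
          mul_le_mul_of_nonneg_left h10 h11
      _ = 1 / (4 * (m + 2)) * ((Lam m i : ℝ) * (9 * u)) * (1 / 2 ^ i) := by
          field_simp
  have h3 : ((((range (Lam m K)).filter fun y => ¬ GoodAll m K y).card : ℕ) : ℝ)
      ≤ ∑ i ∈ range K, ((((range (Lam m K)).filter fun y =>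
        ¬ (y % Lam m i + Rr m i < Lam m i)).card : ℕ) : ℝ) := by
    exact_mod_cast (Finset.card_le_card h1).trans Finset.card_biUnion_le
  refine h3.trans ((Finset.sum_le_sum h2).trans ?_)
  rw [← Finset.mul_sum]
  have h4 := sum_geometric_two_le K
  have h5 : (0 : ℝ) ≤ 1 / (4 * (m + 2)) * (Lam m K : ℝ) := by positivity
  calc 1 / (4 * ((m : ℝ) + 2)) * (Lam m K : ℝ) * ∑ i ∈ range K, (1 / 2 : ℝ) ^ i
      ≤ 1 / (4 * ((m : ℝ) + 2)) * (Lam m K : ℝ) * 2 := mul_le_mul_of_nonneg_left h4 h5
    _ = 1 / (2 * (m + 2)) * (Lam m K : ℝ) := by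
        field_simp
        ring

lemma card_slice {k : ℕ} {Z : Type} [Fintype Z] [DecidableEq Z] (q : Z → Prop) [DecidablePred q]
    (r : Fin k) [DecidablePred fun v : Fin k → Z => q (v r)] :
    (univ.filter fun v : Fin k → Z => q (v r)).card * Fintype.card Z
      = (univ.filter fun x : Z => q x).card * Fintype.card Z ^ k := by
  have h1 : (univ.filter fun v : Fin k → Z => q (v r))
      = Fintype.piFinset (Function.update (fun _ : Fin k => (univ : Finset Z)) r
        (univ.filter fun x : Z => q x)) := by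
    ext v
    rw [Finset.mem_filter, Fintype.mem_piFinset]
    constructor
    · rintro ⟨_, h⟩ i
      by_cases hi : i = r
      · subst hi
        rw [Function.update_self, Finset.mem_filter]
        exact ⟨Finset.mem_univ _, h⟩
      · rw [Function.update_of_ne hi]
        exact Finset.mem_univ _
    · intro h
      have := h r
      rw [Function.update_self, Finset.mem_filter] at this
      exact ⟨Finset.mem_univ _, this.2⟩
  have h2 : ∀ i, (Function.update (fun _ : Fin k => (univ : Finset Z)) r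
        (univ.filter fun x : Z => q x) i).card
      = Function.update (fun _ : Fin k => Fintype.card Z) r
        (univ.filter fun x : Z => q x).card i := by
    intro i
    by_cases hi : i = r
    · subst hi
      rw [Function.update_self, Function.update_self]
    · rw [Function.update_of_ne hi, Function.update_of_ne hi, Finset.card_univ]
  rw [h1, Fintype.card_piFinset, Finset.prod_congr rfl fun i _ => h2 i,
    Finset.prod_update_of_mem (Finset.mem_univ r), Finset.prod_const]
  have h3 : (univ \ {r} : Finset (Fin k)).card + 1 = k := by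
    rw [Finset.card_sdiff_of_subset (Finset.subset_univ _), Finset.card_univ, Fintype.card_fin,
      Finset.card_singleton]
    have := r.pos
    omega
  calc _ = (univ.filter fun x : Z => q x).card *
        Fintype.card Z ^ ((univ \ {r} : Finset (Fin k)).card + 1) := by
        rw [pow_succ]; ring
    _ = _ := by rw [h3]

open Classical in
lemma card_good (m K : ℕ) :
    (1 / 2 : ℝ) * ((Lam m K : ℝ) ^ (m + 2)) ≤
      (((univ.filter fun v : Fin (m + 2) → ZMod (Lam m K) =>
        ∀ r, GoodAll m K (v r).val).card : ℕ) : ℝ) := by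
  have hL : (0 : ℝ) < Lam m K := by exact_mod_cast Lam_pos m K
  have h1 : ∀ r : Fin (m + 2), (((univ.filter fun v : Fin (m + 2) → ZMod (Lam m K) =>
      ¬ GoodAll m K (v r).val).card : ℕ) : ℝ)
      ≤ (1 / (2 * (m + 2))) * (Lam m K : ℝ) ^ (m + 2) := by
    intro r
    have h2 := card_slice (k := m + 2) (Z := ZMod (Lam m K)) (fun x => ¬ GoodAll m K x.val) r
    rw [ZMod.card] at h2
    have h3 : (((univ.filter fun v : Fin (m + 2) → ZMod (Lam m K) =>
        ¬ GoodAll m K (v r).val).card : ℕ) : ℝ) * Lam m K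
        = (((univ.filter fun x : ZMod (Lam m K) => ¬ GoodAll m K x.val).card : ℕ) : ℝ) *
          (Lam m K : ℝ) ^ (m + 2) := by exact_mod_cast h2
    have h4 := card_bad m K
    have h5 : (0 : ℝ) ≤ (Lam m K : ℝ) ^ (m + 2) := by positivity
    have h6 := mul_le_mul_of_nonneg_right h4 h5
    rw [← h3] at h6
    have h7 : 1 / (2 * ((m : ℝ) + 2)) * (Lam m K : ℝ) * (Lam m K : ℝ) ^ (m + 2)
        = (1 / (2 * (m + 2)) * (Lam m K : ℝ) ^ (m + 2)) * Lam m K := by ring
    rw [h7] at h6
    exact le_of_mul_le_mul_right h6 hL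
  have h2 : (univ : Finset (Fin (m + 2) → ZMod (Lam m K))) ⊆
      (univ.filter fun v : Fin (m + 2) → ZMod (Lam m K) => ∀ r, GoodAll m K (v r).val) ∪
      (univ.biUnion fun r : Fin (m + 2) => univ.filter fun v : Fin (m + 2) → ZMod (Lam m K) =>
        ¬ GoodAll m K (v r).val) := by
    intro v _
    by_cases h : ∀ r, GoodAll m K (v r).val
    · exact Finset.mem_union_left _ (Finset.mem_filter.2 ⟨Finset.mem_univ _, h⟩)
    · push Not at h
      obtain ⟨r, hr⟩ := h
      apply Finset.mem_union_right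
      rw [Finset.mem_biUnion]
      exact ⟨r, Finset.mem_univ _, Finset.mem_filter.2 ⟨Finset.mem_univ _, hr⟩⟩
  have h3 := (Finset.card_le_card h2).trans ((Finset.card_union_le _ _).trans
    (Nat.add_le_add_left Finset.card_biUnion_le _))
  rw [Finset.card_univ, Fintype.card_fun, ZMod.card, Fintype.card_fin] at h3
  have h4 : (Lam m K : ℝ) ^ (m + 2) ≤ (((univ.filter fun v : Fin (m + 2) → ZMod (Lam m K) =>
        ∀ r, GoodAll m K (v r).val).card : ℕ) : ℝ) + ∑ r : Fin (m + 2),
        (((univ.filter fun v : Fin (m + 2) → ZMod (Lam m K) =>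
        ¬ GoodAll m K (v r).val).card : ℕ) : ℝ) := by exact_mod_cast h3
  have h5 : ∑ r : Fin (m + 2), (((univ.filter fun v : Fin (m + 2) → ZMod (Lam m K) =>
        ¬ GoodAll m K (v r).val).card : ℕ) : ℝ) ≤ (1 / 2) * (Lam m K : ℝ) ^ (m + 2) := by
    refine (Finset.sum_le_sum fun r _ => h1 r).trans ?_
    rw [Finset.sum_const, Finset.card_univ, Fintype.card_fin, nsmul_eq_mul]
    apply le_of_eq
    push_cast
    field_simp
  linarith

/-! ### the sets -/

/-- the digits of a block -/
def bd (m i x : ℕ) : GR m := (dig m ((m + 1) * i) x, fun l => dig m ((m + 1) * i + l + 1) x)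

/-- the set -/
def AA (m : ℕ) (F : Fin (m + 3) → (Fin (m + 2) → GR m) → ZMod 9) (K : ℕ)
    (a : Fin (m + 3) → ZMod 9) (v : Fin (m + 2) → ZMod (Lam m ((m + 1) * K))) : Prop :=
  (∀ r, GoodAll m ((m + 1) * K) (v r).val) ∧
    ∀ j, ∑ i ∈ range K, F j (fun r => bd m i (v r).val) = a j

open Classical in
lemma exists_dense (m : ℕ) (F : Fin (m + 3) → (Fin (m + 2) → GR m) → ZMod 9) (K : ℕ) :
    ∃ a : Fin (m + 3) → ZMod 9, (1 / (2 * 9 ^ (m + 3)) : ℝ) *
      ((Lam m ((m + 1) * K) : ℝ) ^ (m + 2)) ≤ (((univ.filter fun v => AA m F K a v).card : ℕ) : ℝ) := by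
  by_contra hcon
  push Not at hcon
  have h1 : (univ.filter fun v : Fin (m + 2) → ZMod (Lam m ((m + 1) * K)) =>
        ∀ r, GoodAll m ((m + 1) * K) (v r).val) ⊆
      univ.biUnion fun a : Fin (m + 3) → ZMod 9 => univ.filter fun v => AA m F K a v := by
    intro v hv
    rw [Finset.mem_biUnion]
    exact ⟨fun j => ∑ i ∈ range K, F j (fun r => bd m i (v r).val), Finset.mem_univ _,
      Finset.mem_filter.2 ⟨Finset.mem_univ _, (Finset.mem_filter.1 hv).2, fun j => rfl⟩⟩
  have h2 := (Finset.card_le_card h1).trans Finset.card_biUnion_le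
  have h3 : (((univ.filter fun v : Fin (m + 2) → ZMod (Lam m ((m + 1) * K)) =>
        ∀ r, GoodAll m ((m + 1) * K) (v r).val).card : ℕ) : ℝ)
      ≤ ∑ a : Fin (m + 3) → ZMod 9, (((univ.filter fun v => AA m F K a v).card : ℕ) : ℝ) := by
    exact_mod_cast h2
  have h4 := card_good m ((m + 1) * K)
  have h5 : ∑ a : Fin (m + 3) → ZMod 9, (((univ.filter fun v => AA m F K a v).card : ℕ) : ℝ)
      < ∑ _a : Fin (m + 3) → ZMod 9, (1 / (2 * 9 ^ (m + 3)) : ℝ) *
      ((Lam m ((m + 1) * K) : ℝ) ^ (m + 2)) :=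
    Finset.sum_lt_sum_of_nonempty Finset.univ_nonempty fun a _ => hcon a
  rw [Finset.sum_const, Finset.card_univ, Fintype.card_fun, ZMod.card, Fintype.card_fin,
    nsmul_eq_mul] at h5
  push_cast at h5
  have h6 : (9 : ℝ) ^ (m + 3) * (1 / (2 * 9 ^ (m + 3)) * (Lam m ((m + 1) * K) : ℝ) ^ (m + 2))
      = (1 / 2) * (Lam m ((m + 1) * K) : ℝ) ^ (m + 2) := by
    field_simp
  rw [h6] at h5
  linarith

/-- digit sequences -/
def Seq (m : ℕ) (s : ℕ → ℕ) : Prop :=
  ∀ p, s p = 0 ∨ s p = 1 ∨ ((m + 1) ∣ p ∧ (s p = 3 ∨ s p = 4))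

/-- blocks with the top digit -/
def TopAt (m : ℕ) (s : ℕ → ℕ) (i : ℕ) : Prop :=
  s ((m + 1) * i) = 4 ∧ ∀ l, 0 < l → l < m + 1 → s ((m + 1) * i + l) = 1

open Classical in
/-- the return set -/
def InN (m n : ℕ) : Prop :=
  ∃ (K : ℕ) (s : ℕ → ℕ), Seq m s ∧ ¬ 3 ∣ ((range K).filter fun i => TopAt m s i).card ∧
    n = ∑ p ∈ range ((m + 1) * K), s p * Lam m p

open Classical in
/-- normal form of the elements of the digit set below `K` -/
lemma normal_form {m n K : ℕ} (hn : InN m n) (hK : n < K) :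
    ∃ s : ℕ → ℕ, Seq m s ∧ ¬ 3 ∣ ((range K).filter fun i => TopAt m s i).card ∧
      n = ∑ p ∈ range ((m + 1) * K), s p * Lam m p := by
  obtain ⟨K', s, hs, h3, hsum⟩ := hn
  set s' : ℕ → ℕ := fun p => if p < (m + 1) * K' then s p else 0 with hs'
  have hsum' : n = ∑ p ∈ range ((m + 1) * K'), s' p * Lam m p := by
    rw [hsum]
    apply Finset.sum_congr rfl
    intro p hp
    simp only [hs', if_pos (Finset.mem_range.1 hp)]
  have hbig : ∀ p, s' p ≠ 0 → p < (m + 1) * K' ∧ p < K := by
    intro p hne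
    have h1 : p < (m + 1) * K' := by
      by_contra h
      exact hne (if_neg h)
    refine ⟨h1, ?_⟩
    have h2 : s' p * Lam m p ≤ n := by
      rw [hsum']
      exact Finset.single_le_sum (f := fun p => s' p * Lam m p) (fun _ _ => Nat.zero_le _)
        (Finset.mem_range.2 h1)
    have h4 : Lam m p ≤ s' p * Lam m p := Nat.le_mul_of_pos_left _ (Nat.pos_of_ne_zero hne)
    have h5 := le_Lam m p
    omega
  refine ⟨s', ?_, ?_, ?_⟩
  · intro p
    by_cases hp : p < (m + 1) * K'
    · simp only [hs', if_pos hp]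
      exact hs p
    · simp only [hs', if_neg hp]
      exact Or.inl trivial
  · have h1 : ((range K).filter fun i => TopAt m s' i) = ((range K').filter fun i => TopAt m s i) := by
      ext i
      simp only [Finset.mem_filter, Finset.mem_range]
      have hpos : ∀ l, l < m + 1 → i < K' → (m + 1) * i + l < (m + 1) * K' := by
        intro l hl hi
        calc (m + 1) * i + l < (m + 1) * i + (m + 1) := by omega
          _ = (m + 1) * (i + 1) := by ring
          _ ≤ (m + 1) * K' := Nat.mul_le_mul_left _ hi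
      have htr : i < K' → (TopAt m s' i ↔ TopAt m s i) := by
        intro hi
        unfold TopAt
        have e0 : s' ((m + 1) * i) = s ((m + 1) * i) := by
          have := hpos 0 (by omega) hi
          simp only [hs']
          rw [if_pos (by omega)]
        have e1 : ∀ l, l < m + 1 → s' ((m + 1) * i + l) = s ((m + 1) * i + l) := by
          intro l hl
          simp only [hs']
          rw [if_pos (hpos l hl hi)]
        rw [e0]
        constructor
        · rintro ⟨h1, h2⟩
          exact ⟨h1, fun l hl hl' => by rw [← e1 l hl']; exact h2 l hl hl'⟩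
        · rintro ⟨h1, h2⟩
          exact ⟨h1, fun l hl hl' => by rw [e1 l hl']; exact h2 l hl hl'⟩
      constructor
      · rintro ⟨_, h2⟩
        have h4 : s' ((m + 1) * i) ≠ 0 := by rw [h2.1]; norm_num
        have h5 : i < K' := by
          have := (hbig _ h4).1
          exact Nat.lt_of_mul_lt_mul_left this
        exact ⟨h5, (htr h5).1 h2⟩
      · rintro ⟨h5, h2⟩
        have h6 := (htr h5).2 h2
        have h4 : s' ((m + 1) * i) ≠ 0 := by rw [h6.1]; norm_num
        have h7 := (hbig _ h4).2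
        have h8 : i ≤ (m + 1) * i := Nat.le_mul_of_pos_left _ (by omega)
        exact ⟨by omega, h6⟩
    rw [h1]
    exact h3
  · rw [hsum']
    have h1 : ∀ N, (∀ p, s' p ≠ 0 → p < N) → ∑ p ∈ range N, s' p * Lam m p
        = ∑ p ∈ range (N + (m + 1) * K' + (m + 1) * K), s' p * Lam m p := by
      intro N hN
      apply Finset.sum_subset
      · intro p hp
        rw [Finset.mem_range] at hp ⊢
        omega
      · intro p _ hp
        rw [Finset.mem_range] at hp
        have : s' p = 0 := by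
          by_contra hne
          exact hp (hN p hne)
        rw [this, zero_mul]
    have h2 : ∀ N, (∀ p, s' p ≠ 0 → p < N) → ∀ N', (∀ p, s' p ≠ 0 → p < N') →
        ∑ p ∈ range N, s' p * Lam m p = ∑ p ∈ range N', s' p * Lam m p := by
      intro N hN N' hN'
      have h3 : ∑ p ∈ range N, s' p * Lam m p = ∑ p ∈ range (N + N'), s' p * Lam m p := by
        apply Finset.sum_subset
        · intro p hp
          rw [Finset.mem_range] at hp ⊢
          omega
        · intro p _ hp
          rw [Finset.mem_range] at hp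
          have : s' p = 0 := by
            by_contra hne
            exact hp (hN p hne)
          rw [this, zero_mul]
      have h4 : ∑ p ∈ range N', s' p * Lam m p = ∑ p ∈ range (N + N'), s' p * Lam m p := by
        apply Finset.sum_subset
        · intro p hp
          rw [Finset.mem_range] at hp ⊢
          omega
        · intro p _ hp
          rw [Finset.mem_range] at hp
          have : s' p = 0 := by
            by_contra hne
            exact hp (hN' p hne)
          rw [this, zero_mul]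
      rw [h3, h4]
    apply h2
    · exact fun p hp => (hbig p hp).1
    · intro p hp
      have h8 : K ≤ (m + 1) * K := Nat.le_mul_of_pos_left _ (by omega)
      exact (hbig p hp).2.trans_le h8

lemma no_corner (m : ℕ) (F : Fin (m + 3) → (Fin (m + 2) → GR m) → ZMod 9)
    (hF : ∀ (v : Fin (m + 2) → GR m) (s : GR m), DR m s →
      F 0 v + ∑ r, F r.succ (Function.update v r (v r + s)) = om m s)
    (K : ℕ) (a : Fin (m + 3) → ZMod 9) (n : ℕ) (hn : InN m n) (hK : n < K)
    (v : Fin (m + 2) → ZMod (Lam m ((m + 1) * K))) :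
    ¬ (AA m F K a v ∧ ∀ r, AA m F K a (v + Pi.single r (n : ZMod (Lam m ((m + 1) * K))))) := by
  classical
  rintro ⟨⟨hg, ha⟩, hcor⟩
  obtain ⟨s, hs, h3, hsum⟩ := normal_form hn hK
  have hs4 : ∀ j, s j ≤ 4 := by
    intro j
    rcases hs j with h | h | ⟨_, h | h⟩ <;> omega
  -- digits of the block
  set σ : ℕ → GR m := fun i =>
    (((s ((m + 1) * i) : ℕ) : ZMod 9), fun l => ((s ((m + 1) * i + l + 1) : ℕ) : ZMod 9)) with hσ
  have hnd : ∀ (i : ℕ) (l : Fin m), ¬ (m + 1) ∣ (m + 1) * i + l + 1 := by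
    intro i l h
    have h1 : (m + 1) ∣ (l : ℕ) + 1 := by
      have := (Nat.dvd_add_right (Dvd.intro i rfl : (m + 1) ∣ (m + 1) * i)).1
        (by rwa [add_assoc] at h)
      exact this
    have h2 := Nat.le_of_dvd (by omega) h1
    have := l.2
    omega
  have hs01 : ∀ (i : ℕ) (l : Fin m), s ((m + 1) * i + l + 1) = 0 ∨ s ((m + 1) * i + l + 1) = 1 := by
    intro i l
    rcases hs ((m + 1) * i + l + 1) with h | h | ⟨h, _⟩
    · exact Or.inl h
    · exact Or.inr h
    · exact absurd h (hnd i l)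
  have hσD : ∀ i, DR m (σ i) := by
    intro i
    constructor
    · simp only [hσ]
      rcases hs ((m + 1) * i) with h | h | ⟨_, h | h⟩ <;> simp [h]
    · intro l
      simp only [hσ]
      rcases hs01 i l with h | h <;> simp [h]
  have hpos : ∀ i, i < K → ∀ l, l < m + 1 → (m + 1) * i + l < (m + 1) * K := by
    intro i hi l hl
    calc (m + 1) * i + l < (m + 1) * i + (m + 1) := by omega
      _ = (m + 1) * (i + 1) := by ring
      _ ≤ (m + 1) * K := Nat.mul_le_mul_left _ hi
  have hval : ∀ y : ZMod (Lam m ((m + 1) * K)), (y + (n : ZMod (Lam m ((m + 1) * K)))).val = (y.val + n) % Lam m ((m + 1) * K) := by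
    intro y
    rw [ZMod.val_add, ZMod.val_natCast, Nat.add_mod_mod]
  have hdig : ∀ y : ZMod (Lam m ((m + 1) * K)), GoodAll m ((m + 1) * K) y.val → ∀ p, p < (m + 1) * K →
      dig m p (y + (n : ZMod (Lam m ((m + 1) * K)))).val = dig m p y.val + (s p : ZMod 9) := by
    intro y hy p hp
    rw [hval]
    have h1 : dig m p ((y.val + n) % Lam m ((m + 1) * K)) = dig m p (y.val + n) := dig_mod m p _ _ hp
    rw [h1, hsum]
    exact dig_add m _ p y.val s hs4 hp (hy p hp)
  have hbd : ∀ y : ZMod (Lam m ((m + 1) * K)), GoodAll m ((m + 1) * K) y.val → ∀ i, i < K →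
      bd m i (y + (n : ZMod (Lam m ((m + 1) * K)))).val = bd m i y.val + σ i := by
    intro y hy i hi
    unfold bd
    simp only [hσ, Prod.mk_add_mk]
    rw [hdig y hy _ (by simpa using hpos i hi 0 (by omega))]
    congr 1
    funext l
    rw [hdig y hy _ (by have := hpos i hi (l + 1) (by omega); omega)]
    rfl
  -- the two evaluations
  have e0 : ∀ i, F 0 (fun r => bd m i (v r).val) +
      ∑ r : Fin (m + 2), F r.succ (fun r => bd m i (v r).val) = 0 := by
    intro i
    have h1 := hF (fun r => bd m i (v r).val) 0 ⟨Or.inl rfl, fun l => Or.inl rfl⟩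
    have h2 : om m (0 : GR m) = 0 := by
      unfold om
      rw [if_neg]
      rintro ⟨h, _⟩
      exact absurd (show (0 : ZMod 9) = 4 from h) (by decide)
    rw [h2] at h1
    rw [← h1]
    congr 1
    apply Finset.sum_congr rfl
    intro r _
    rw [add_zero, Function.update_eq_self]
  have e1 : ∑ j, a j = 0 := by
    rw [Fin.sum_univ_succ, ← ha 0]
    simp only [← ha]
    rw [Finset.sum_comm, ← Finset.sum_add_distrib]
    exact Finset.sum_eq_zero fun i _ => e0 i
  have e2 : ∑ j, a j = ∑ i ∈ range K, om m (σ i) := by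
    rw [Fin.sum_univ_succ, ← ha 0]
    have h1 : ∀ r : Fin (m + 2), a r.succ = ∑ i ∈ range K,
        F r.succ (Function.update (fun r => bd m i (v r).val) r (bd m i (v r).val + σ i)) := by
      intro r
      rw [← (hcor r).2 r.succ]
      apply Finset.sum_congr rfl
      intro i hi
      congr 1
      funext r'
      by_cases hr : r' = r
      · subst hr
        rw [Function.update_self, ← hbd (v r') (hg r') i (Finset.mem_range.1 hi)]
        simp only [Pi.add_apply, Pi.single_eq_same]
      · rw [Function.update_of_ne hr]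
        simp only [Pi.add_apply, Pi.single_eq_of_ne hr, add_zero]
    simp only [h1]
    rw [Finset.sum_comm, ← Finset.sum_add_distrib]
    apply Finset.sum_congr rfl
    intro i _
    exact hF (fun r => bd m i (v r).val) (σ i) (hσD i)
  rw [e1] at e2
  have e3 : ∀ i, om m (σ i) = if TopAt m s i then 3 else 0 := by
    intro i
    unfold om
    have h9 : ∀ b : ℕ, b ≤ 4 → (((b : ℕ) : ZMod 9) = 4 ↔ b = 4) := by
      intro b hb
      interval_cases b <;> decide
    have h10 : ∀ b : ℕ, b ≤ 4 → (((b : ℕ) : ZMod 9) = 1 ↔ b = 1) := by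
      intro b hb
      interval_cases b <;> decide
    have hiff : ((σ i).1 = 4 ∧ ∀ l, (σ i).2 l = 1) ↔ TopAt m s i := by
      simp only [hσ, TopAt]
      rw [h9 _ (hs4 _)]
      constructor
      · rintro ⟨h1, h2⟩
        refine ⟨h1, fun l hl hl' => ?_⟩
        have := h2 ⟨l - 1, by omega⟩
        rw [h10 _ (hs4 _)] at this
        simp only at this
        have e : (m + 1) * i + (l - 1) + 1 = (m + 1) * i + l := by omega
        rwa [e] at this
      · rintro ⟨h1, h2⟩
        refine ⟨h1, fun l => ?_⟩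
        rw [h10 _ (hs4 _), add_assoc]
        exact h2 (l + 1) (by omega) (by have := l.2; omega)
    by_cases h : TopAt m s i
    · rw [if_pos (hiff.2 h), if_pos h]
    · rw [if_neg fun h' => h (hiff.1 h'), if_neg h]
  simp only [e3] at e2
  rw [← Finset.sum_filter, Finset.sum_const] at e2
  have e4 : ((((range K).filter (fun i => TopAt m s i)).card * 3 : ℕ) : ZMod 9) = 0 := by
    rw [nsmul_eq_mul] at e2
    push_cast
    exact e2.symm
  rw [ZMod.natCast_eq_zero_iff] at e4
  apply h3
  omega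

end Pool.Agent.H82.KRec
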