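import Pool.Agent.H82.KRec.Pos
import Pool.Agent.H82.KRec.Neg
import Pool.Agent.H82.KRec.Limit

/-!
Conversion between the two descriptions of the digit set.
-/

namespace Pool.Agent.H82.KRec

open Finset MeasureTheory

set_option linter.unusedVariables false

/-- the value of a block -/
noncomputable def VV (m : ℕ) (i : ℕ) : ℤ × (Fin m → ℤ) →+ ℤ where
  toFun s := s.1 * (Lam m ((m + 1) * i) : ℤ) +
    ∑ l : Fin m, s.2 l * (Lam m ((m + 1) * i + l + 1) : ℤ)
  map_zero' := by simp
  map_add' := by
    intro a b
    simp only [Prod.fst_add, Prod.snd_add, Pi.add_apply, add_mul, Finset.sum_add_distrib]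
    ring

lemma sum_blocks {M : Type*} [AddCommMonoid M] (m K : ℕ) (f : ℕ → M) :
    ∑ p ∈ range ((m + 1) * K), f p
      = ∑ i ∈ range K, (f ((m + 1) * i) + ∑ l : Fin m, f ((m + 1) * i + l + 1)) := by
  induction K with
  | zero => simp
  | succ K ih =>
    rw [Nat.mul_succ, Finset.sum_range_add, ih, Finset.sum_range_succ (n := K)]
    congr 1
    rw [Finset.sum_range_succ', add_comm, Finset.sum_range]
    rfl

/-- the digit sequence attached to a choice of blocks -/
noncomputable def sq (m : ℕ) (J : Finset ℕ) (s : ℕ → ℤ × (Fin m → ℤ)) (p : ℕ) : ℕ := by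
  classical
  exact if p / (m + 1) ∈ J then
    (if h : p % (m + 1) = 0 then (s (p / (m + 1))).1.toNat
      else (s (p / (m + 1))).2 ⟨p % (m + 1) - 1, by
        have := Nat.mod_lt p (show 0 < m + 1 by omega); omega⟩ |>.toNat)
  else 0

lemma sq_head (m : ℕ) (J : Finset ℕ) (s : ℕ → ℤ × (Fin m → ℤ)) (i : ℕ) (hi : i ∈ J) :
    sq m J s ((m + 1) * i) = (s i).1.toNat := by
  have h1 : (m + 1) * i / (m + 1) = i := Nat.mul_div_cancel_left _ (by omega)
  have h2 : (m + 1) * i % (m + 1) = 0 := Nat.mul_mod_right _ _
  unfold sq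
  rw [if_pos (by rw [h1]; exact hi), dif_pos h2, h1]

lemma sq_tail (m : ℕ) (J : Finset ℕ) (s : ℕ → ℤ × (Fin m → ℤ)) (i : ℕ) (hi : i ∈ J) (l : Fin m) :
    sq m J s ((m + 1) * i + l + 1) = ((s i).2 l).toNat := by
  have hl := l.2
  have h1 : ((m + 1) * i + l + 1) / (m + 1) = i := by
    rw [add_assoc, Nat.mul_add_div (by omega), Nat.div_eq_of_lt (by omega), add_zero]
  have h2 : ((m + 1) * i + l + 1) % (m + 1) = l + 1 := by
    rw [add_assoc, Nat.mul_add_mod, Nat.mod_eq_of_lt (by omega)]
  unfold sq
  rw [if_pos (by rw [h1]; exact hi), dif_neg (by omega)]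
  have h3 : ∀ (a : ℕ) (ha : a = i) (b : Fin m) (hb : b = l),
      ((s a).2 b).toNat = ((s i).2 l).toNat := by
    rintro a rfl b rfl; rfl
  apply h3 _ h1
  apply Fin.ext
  simp only [h2]
  omega

lemma sq_out (m : ℕ) (J : Finset ℕ) (s : ℕ → ℤ × (Fin m → ℤ)) (i : ℕ) (hi : i ∉ J) (l : ℕ)
    (hl : l < m + 1) : sq m J s ((m + 1) * i + l) = 0 := by
  have h1 : ((m + 1) * i + l) / (m + 1) = i := by
    rw [Nat.mul_add_div (by omega), Nat.div_eq_of_lt hl, add_zero]
  unfold sq
  rw [if_neg (by rw [h1]; exact hi)]

lemma inN_of_inS {m : ℕ} {N : ℤ} (h : InS m (VV m) N) : ∃ n : ℕ, N = n ∧ InN m n := by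
  classical
  obtain ⟨J, s, hs, h3, hN⟩ := h
  obtain ⟨K, hK⟩ : ∃ K, J ⊆ range K := J.exists_nat_subset_range
  have hz : ∀ i ∈ J, ((s i).1.toNat : ℤ) = (s i).1 := by
    intro i hi
    apply Int.toNat_of_nonneg
    rcases (mem_DD.1 (hs i hi)).1 with h | h | h | h <;> rw [h] <;> norm_num
  have hz' : ∀ i ∈ J, ∀ l, (((s i).2 l).toNat : ℤ) = (s i).2 l := by
    intro i hi l
    apply Int.toNat_of_nonneg
    rcases (mem_DD.1 (hs i hi)).2 l with h | h <;> rw [h] <;> norm_num
  refine ⟨∑ p ∈ range ((m + 1) * K), sq m J s p * Lam m p, ?_, K, sq m J s, ?_, ?_, rfl⟩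
  · rw [sum_blocks, hN]
    push_cast
    have h1 : ∀ i ∈ range K, ((sq m J s ((m + 1) * i) : ℤ) * (Lam m ((m + 1) * i) : ℤ) +
        ∑ l : Fin m, (sq m J s ((m + 1) * i + l + 1) : ℤ) * (Lam m ((m + 1) * i + l + 1) : ℤ))
        = if i ∈ J then VV m i (s i) else 0 := by
      intro i _
      by_cases hi : i ∈ J
      · rw [if_pos hi, sq_head m J s i hi, hz i hi]
        have h2 : ∀ l : Fin m, (sq m J s ((m + 1) * i + l + 1) : ℤ) *
            (Lam m ((m + 1) * i + l + 1) : ℤ) = (s i).2 l * (Lam m ((m + 1) * i + l + 1) : ℤ) := by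
          intro l
          rw [sq_tail m J s i hi, hz' i hi]
        simp only [h2]
        rfl
      · rw [if_neg hi]
        have h0 := sq_out m J s i hi 0 (by omega)
        rw [add_zero] at h0
        have h2 : ∀ l : Fin m, (sq m J s ((m + 1) * i + l + 1) : ℤ) *
            (Lam m ((m + 1) * i + l + 1) : ℤ) = 0 := by
          intro l
          have := sq_out m J s i hi (l + 1) (by have := l.2; omega)
          rw [← add_assoc] at this
          rw [this]
          simp
        simp only [h2, h0]
        simp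
    rw [Finset.sum_congr rfl h1, ← Finset.sum_filter]
    apply Finset.sum_congr _ fun _ _ => rfl
    ext i
    rw [Finset.mem_filter]
    exact ⟨fun h => ⟨hK h, h⟩, fun h => h.2⟩
  · intro p
    have hp : p = (m + 1) * (p / (m + 1)) + p % (m + 1) := (Nat.div_add_mod p (m + 1)).symm
    set i := p / (m + 1) with hi
    set l := p % (m + 1) with hl
    have hlt : l < m + 1 := Nat.mod_lt _ (by omega)
    by_cases hJ : i ∈ J
    · rcases Nat.eq_zero_or_pos l with h0 | h0
      · rw [hp, h0, add_zero, sq_head m J s i hJ]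
        rcases (mem_DD.1 (hs i hJ)).1 with h | h | h | h
        · left; rw [h]; rfl
        · right; left; rw [h]; rfl
        · right; right; exact ⟨Dvd.intro i rfl, Or.inl (by rw [h]; rfl)⟩
        · right; right; exact ⟨Dvd.intro i rfl, Or.inr (by rw [h]; rfl)⟩
      · have h1 : p = (m + 1) * i + (⟨l - 1, by omega⟩ : Fin m) + 1 := by
          simp only
          omega
        rw [h1, sq_tail m J s i hJ]
        rcases (mem_DD.1 (hs i hJ)).2 ⟨l - 1, by omega⟩ with h | h
        · left; rw [h]; rfl
        · right; left; rw [h]; rfl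
    · left
      rw [hp]
      exact sq_out m J s i hJ l hlt
  · have h1 : ((range K).filter fun i => TopAt m (sq m J s) i)
        = J.filter (fun i => s i = top m) := by
      ext i
      rw [Finset.mem_filter, Finset.mem_filter]
      by_cases hi : i ∈ J
      · have h2 : TopAt m (sq m J s) i ↔ s i = top m := by
          unfold TopAt
          rw [sq_head m J s i hi]
          have hD := mem_DD.1 (hs i hi)
          constructor
          · rintro ⟨h4, h5⟩
            have e1 : (s i).1 = 4 := by
              have := hz i hi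
              rw [h4] at this
              exact this.symm
            have e2 : ∀ l, (s i).2 l = 1 := by
              intro l
              have h6 := h5 (l + 1) (by omega) (by have := l.2; omega)
              rw [← add_assoc, sq_tail m J s i hi] at h6
              have := hz' i hi l
              rw [h6] at this
              exact this.symm
            exact Prod.ext e1 (funext e2)
          · intro h
            rw [h]
            refine ⟨rfl, fun l hl hl' => ?_⟩
            have h1 : (m + 1) * i + l = (m + 1) * i + (⟨l - 1, by omega⟩ : Fin m) + 1 := by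
              simp only
              omega
            rw [h1, sq_tail m J s i hi, h]
            rfl
        rw [h2]
        exact ⟨fun h => ⟨hi, h.2⟩, fun h => ⟨hK hi, h.2⟩⟩
      · constructor
        · rintro ⟨_, h4, _⟩
          have h0 := sq_out m J s i hi 0 (by omega)
          rw [add_zero] at h0
          rw [h0] at h4
          exact absurd h4 (by norm_num)
        · rintro ⟨h, _⟩
          exact absurd h hi
    rw [h1]
    exact h3

lemma inN_pos {m n : ℕ} (h : InN m n) : 0 < n := by
  classical
  obtain ⟨K, s, _, h3, hN⟩ := h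
  rcases Nat.eq_zero_or_pos n with h0 | h0
  · exfalso
    apply h3
    have h4 : ((range K).filter fun i => TopAt m s i) = ∅ := by
      apply Finset.filter_eq_empty_iff.2
      intro i hi hT
      rw [h0] at hN
      have h6 : (m + 1) * i ∈ range ((m + 1) * K) := by
        rw [Finset.mem_range] at hi ⊢
        exact Nat.mul_lt_mul_of_pos_left hi (by omega)
      have h5 := (Finset.sum_eq_zero_iff.1 hN.symm) _ h6
      have h7 := Lam_pos m ((m + 1) * i)
      rw [hT.1] at h5
      omega
    rw [h4]
    simp
  · exact h0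

end Pool.Agent.H82.KRec
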