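import Mathlib

/-!
The corner identity: the block weight is a sum of functions of the vertices of a corner.
-/

namespace Pool.Agent.H82.KRec

open Finset

/-! ### digit functions modulo nine -/

def g1 (x : ZMod 9) : ZMod 9 := ((x.val % 3 : ℕ) : ZMod 9) - x ^ 2

def h1 (x y : ZMod 9) : ZMod 9 := 2 * x * y + if x.val % 3 = 2 then 3 * y else 0

set_option maxRecDepth 10000 in
lemma digit_identity : ∀ x y s : ZMod 9, (s = 0 ∨ s = 1 ∨ s = 3 ∨ s = 4) →
    g1 (x + s) - g1 x + (h1 x (y + s) - h1 x y) = if s = 4 then 3 else 0 := by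
  decide

/-- the digit group of a block modulo nine -/
abbrev GR (m : ℕ) : Type := ZMod 9 × (Fin m → ZMod 9)

/-- the digits modulo nine -/
def DR (m : ℕ) (s : GR m) : Prop :=
  (s.1 = 0 ∨ s.1 = 1 ∨ s.1 = 3 ∨ s.1 = 4) ∧ ∀ l, s.2 l = 0 ∨ s.2 l = 1

open Classical in
/-- the weight modulo nine -/
noncomputable def om (m : ℕ) (s : GR m) : ZMod 9 := if s.1 = 4 ∧ ∀ l, s.2 l = 1 then 3 else 0

lemma om_eq (m : ℕ) (s : GR m) (hs : DR m s) :
    om m s = (if s.1 = 4 then 3 else 0) * ∏ l, s.2 l := by
  classical
  unfold om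
  by_cases h : s.1 = 4 ∧ ∀ l, s.2 l = 1
  · rw [if_pos h, if_pos h.1, Finset.prod_eq_one fun l _ => h.2 l, mul_one]
  · rw [if_neg h]
    by_cases h4 : s.1 = 4
    · have : ∃ l, s.2 l ≠ 1 := by
        by_contra hcon
        push Not at hcon
        exact h ⟨h4, hcon⟩
      obtain ⟨l, hl⟩ := this
      have h0 : s.2 l = 0 := (hs.2 l).resolve_right hl
      rw [Finset.prod_eq_zero (Finset.mem_univ l) h0, mul_zero]
    · rw [if_neg h4, zero_mul]

/-- three distinct players outside a small set -/
lemma exists_triple (m : ℕ) (χ : Fin m → Fin (m + 3)) :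
    ∃ a b c : Fin (m + 3), a ≠ b ∧ a ≠ c ∧ b ≠ c ∧ (∀ l, χ l ≠ a) ∧ (∀ l, χ l ≠ b) ∧
      (∀ l, χ l ≠ c) := by
  classical
  have h1 : 2 < ((Finset.univ : Finset (Fin (m + 3))) \ Finset.univ.image χ).card := by
    have h2 := Finset.le_card_sdiff (Finset.univ.image χ) (Finset.univ : Finset (Fin (m + 3)))
    have h3 : (Finset.univ.image χ).card ≤ m := by
      have := Finset.card_image_le (s := (Finset.univ : Finset (Fin m))) (f := χ)
      simpa using this
    rw [Finset.card_univ, Fintype.card_fin] at h2
    omega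
  obtain ⟨a, ha, b, hb, c, hc, hab, hac, hbc⟩ := Finset.two_lt_card.1 h1
  have hx : ∀ x, x ∈ (Finset.univ : Finset (Fin (m + 3))) \ Finset.univ.image χ →
      ∀ l, χ l ≠ x := by
    intro x hx l hl
    rw [Finset.mem_sdiff] at hx
    exact hx.2 (Finset.mem_image.2 ⟨l, Finset.mem_univ _, hl⟩)
  exact ⟨a, b, c, hab, hac, hbc, hx a ha, hx b hb, hx c hc⟩

/-- the number-on-the-forehead form -/
theorem nof (m : ℕ) : ∃ H : Fin (m + 3) → (Fin (m + 3) → GR m) → ZMod 9,
    (∀ j p x, H j (Function.update p j x) = H j p) ∧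
    ∀ p, DR m (∑ j, p j) → ∑ j, H j p = om m (∑ j, p j) := by
  classical
  choose a b c hab hac hbc ha hb hc using exists_triple m
  -- contribution of a choice function
  let T : (Fin m → Fin (m + 3)) → Fin (m + 3) → (Fin (m + 3) → GR m) → ZMod 9 := fun χ j p =>
    (∏ l, (p (χ l)).2 l) *
      ((if j = a χ then - g1 (-(p (b χ)).1) - h1 (-(p (b χ)).1) (-(p (c χ)).1) else 0) +
      (if j = b χ then g1 (∑ i, (p i).1 - (p (b χ)).1) else 0) +
      (if j = c χ then h1 (-(p (b χ)).1) (∑ i, (p i).1 - (p (c χ)).1) else 0))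
  refine ⟨fun j p => ∑ χ : Fin m → Fin (m + 3), T χ j p, ?_, ?_⟩
  · intro j p x
    apply Finset.sum_congr rfl
    intro χ _
    have hsum : ∑ i, (Function.update p j x i).1 - (Function.update p j x j).1
        = ∑ i, (p i).1 - (p j).1 := by
      rw [← Finset.add_sum_erase _ _ (Finset.mem_univ j),
        ← Finset.add_sum_erase Finset.univ (fun i => (p i).1) (Finset.mem_univ j)]
      rw [add_sub_cancel_left, add_sub_cancel_left]
      apply Finset.sum_congr rfl
      intro i hi
      rw [Function.update_of_ne (Finset.ne_of_mem_erase hi)]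
    by_cases hja : j = a χ
    · have h1' : ∏ l, (Function.update p j x (χ l)).2 l = ∏ l, (p (χ l)).2 l := by
        apply Finset.prod_congr rfl
        intro l _
        rw [Function.update_of_ne (by rw [hja]; exact ha χ l)]
      have hb' : Function.update p j x (b χ) = p (b χ) :=
        Function.update_of_ne (by rw [hja]; exact (hab χ).symm) _ _
      have hc' : Function.update p j x (c χ) = p (c χ) :=
        Function.update_of_ne (by rw [hja]; exact (hac χ).symm) _ _
      have hjb : j ≠ b χ := by rw [hja]; exact hab χ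
      have hjc : j ≠ c χ := by rw [hja]; exact hac χ
      simp only [T, h1', hb', hc', if_neg hjb, if_neg hjc]
    · by_cases hjb : j = b χ
      · have h1' : ∏ l, (Function.update p j x (χ l)).2 l = ∏ l, (p (χ l)).2 l := by
          apply Finset.prod_congr rfl
          intro l _
          rw [Function.update_of_ne (by rw [hjb]; exact hb χ l)]
        have hjc : j ≠ c χ := by rw [hjb]; exact hbc χ
        simp only [T, h1', if_neg hja, if_neg hjc, ← hjb, hsum]
      · by_cases hjc : j = c χ
        · have h1' : ∏ l, (Function.update p j x (χ l)).2 l = ∏ l, (p (χ l)).2 l := by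
            apply Finset.prod_congr rfl
            intro l _
            rw [Function.update_of_ne (by rw [hjc]; exact hc χ l)]
          have hb' : Function.update p j x (b χ) = p (b χ) :=
            Function.update_of_ne (by rw [hjc]; exact hbc χ) _ _
          simp only [T, h1', hb', if_neg hja, if_neg hjb, ← hjc, hsum]
        · simp only [T, if_neg hja, if_neg hjb, if_neg hjc, add_zero, mul_zero]
  · intro p hp
    rw [Finset.sum_comm, om_eq m _ hp]
    have e1 : (∑ j, p j).1 = ∑ j, (p j).1 := Prod.fst_sum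
    have e2 : ∀ l, (∑ j, p j).2 l = ∑ j, (p j).2 l := by
      intro l
      rw [Prod.snd_sum, Finset.sum_apply]
    have e3 : ∏ l, (∑ j, p j).2 l
        = ∑ χ : Fin m → Fin (m + 3), ∏ l, (p (χ l)).2 l := by
      simp only [e2]
      rw [Finset.prod_univ_sum, Fintype.piFinset_univ]
    rw [e3, Finset.mul_sum]
    apply Finset.sum_congr rfl
    intro χ _
    simp only [T]
    rw [← Finset.mul_sum, Finset.sum_add_distrib, Finset.sum_add_distrib,
      Finset.sum_ite_eq', Finset.sum_ite_eq', Finset.sum_ite_eq', if_pos (Finset.mem_univ _),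
      if_pos (Finset.mem_univ _), if_pos (Finset.mem_univ _), mul_comm]
    congr 1
    have h := hp.1
    rw [e1] at h ⊢
    have key := digit_identity (-(p (b χ)).1) (-(p (c χ)).1) (∑ j, (p j).1) h
    rw [← key]
    have e4 : -(p (b χ)).1 + ∑ j, (p j).1 = ∑ j, (p j).1 - (p (b χ)).1 := by ring
    have e5 : -(p (c χ)).1 + ∑ j, (p j).1 = ∑ j, (p j).1 - (p (c χ)).1 := by ring
    rw [e4, e5]
    ring

/-- **the corner identity** -/
theorem corner_id (m : ℕ) : ∃ F : Fin (m + 3) → (Fin (m + 2) → GR m) → ZMod 9,
    ∀ (v : Fin (m + 2) → GR m) (s : GR m), DR m s →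
      F 0 v + ∑ r, F r.succ (Function.update v r (v r + s)) = om m s := by
  classical
  obtain ⟨H, hH, hsum⟩ := nof m
  refine ⟨Fin.cons (fun v => H 0 (Fin.cons 0 (fun r => -v r)))
    (fun r v => H r.succ (Fin.cons (∑ i, v i) (fun i => -v i))), ?_⟩
  intro v s hs
  set p : Fin (m + 3) → GR m := Fin.cons (s + ∑ i, v i) (fun r => -v r) with hp
  have hps : ∑ j, p j = s := by
    rw [Fin.sum_univ_succ, hp]
    simp only [Fin.cons_zero, Fin.cons_succ, Finset.sum_neg_distrib]
    abel
  have key := hsum p (by rw [hps]; exact hs)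
  rw [hps, Fin.sum_univ_succ] at key
  rw [← key]
  simp only [Fin.cons_zero, Fin.cons_succ]
  congr 1
  · rw [← hH 0 p 0]
    congr 1
    funext j
    refine Fin.cases ?_ (fun i => ?_) j
    · simp
    · rw [Function.update_of_ne (Fin.succ_ne_zero i), hp]
      simp only [Fin.cons_succ]
  · apply Finset.sum_congr rfl
    intro r _
    rw [← hH r.succ p (-(v r + s))]
    congr 1
    funext j
    refine Fin.cases ?_ (fun i => ?_) j
    · rw [Function.update_of_ne (Fin.succ_ne_zero r).symm, hp]
      simp only [Fin.cons_zero]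
      rw [← Finset.add_sum_erase _ _ (Finset.mem_univ r), Function.update_self,
        ← Finset.add_sum_erase Finset.univ v (Finset.mem_univ r)]
      have : ∑ x ∈ Finset.univ.erase r, Function.update v r (v r + s) x
          = ∑ x ∈ Finset.univ.erase r, v x := by
        apply Finset.sum_congr rfl
        intro i hi
        rw [Function.update_of_ne (Finset.ne_of_mem_erase hi)]
      rw [this]
      abel
    · by_cases hir : i = r
      · subst hir
        rw [Function.update_self]
        simp only [Fin.cons_succ, Function.update_self]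
      · rw [Function.update_of_ne (by intro h; exact hir (Fin.succ_injective _ h)), hp]
        simp only [Fin.cons_succ]
        rw [Function.update_of_ne hir]

end Pool.Agent.H82.KRec
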