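import Mathlib

/-!
Weighted multiple correlation sums of a measure preserving action of the integers:
the van der Corput step and the three-term step.
-/

namespace Pool.Agent.H82.KRec

open Finset MeasureTheory

universe u

/-- a measure preserving action of the integers -/
structure Act {X : Type u} [MeasurableSpace X] (μ : Measure X) where
  P : ℤ → X → X
  zero : ∀ x, P 0 x = x
  add : ∀ j k x, P (j + k) x = P j (P k x)
  mp : ∀ k, MeasurePreserving (P k) μ μ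

set_option linter.unusedSectionVars false
set_option linter.unusedVariables false

section basic

variable {X : Type u} [MeasurableSpace X]

/-- measurable and bounded by one -/
def BM (f : X → ℂ) : Prop := Measurable f ∧ ∀ x, ‖f x‖ ≤ 1

/-- measurable and bounded -/
def Bdd (f : X → ℂ) : Prop := Measurable f ∧ ∃ C : ℝ, ∀ x, ‖f x‖ ≤ C

lemma BM.bdd {f : X → ℂ} (h : BM f) : Bdd f := ⟨h.1, 1, h.2⟩

lemma BM.mul {f g : X → ℂ} (hf : BM f) (hg : BM g) : BM (fun x => f x * g x) := by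
  refine ⟨hf.1.mul hg.1, fun x => ?_⟩
  rw [norm_mul]
  exact mul_le_one₀ (hf.2 x) (norm_nonneg _) (hg.2 x)

lemma BM.conj {f : X → ℂ} (hf : BM f) : BM (fun x => (starRingEnd ℂ) (f x)) := by
  refine ⟨Complex.continuous_conj.measurable.comp hf.1, fun x => ?_⟩
  rw [Complex.norm_conj]
  exact hf.2 x

lemma BM.prod {ι : Type*} (s : Finset ι) {f : ι → X → ℂ} (hf : ∀ i, BM (f i)) :
    BM (fun x => ∏ i ∈ s, f i x) := by
  refine ⟨Finset.measurable_fun_prod s fun i _ => (hf i).1, fun x => ?_⟩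
  rw [norm_prod]
  exact Finset.prod_le_one (fun i _ => norm_nonneg _) fun i _ => (hf i).2 x

lemma Bdd.mul {f g : X → ℂ} (hf : Bdd f) (hg : Bdd g) : Bdd (fun x => f x * g x) := by
  obtain ⟨hf1, C, hC⟩ := hf
  obtain ⟨hg1, C', hC'⟩ := hg
  refine ⟨hf1.mul hg1, C * C', fun x => ?_⟩
  rw [norm_mul]
  exact mul_le_mul (hC x) (hC' x) (norm_nonneg _) ((norm_nonneg _).trans (hC x))

lemma Bdd.add {f g : X → ℂ} (hf : Bdd f) (hg : Bdd g) : Bdd (fun x => f x + g x) := by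
  obtain ⟨hf1, C, hC⟩ := hf
  obtain ⟨hg1, C', hC'⟩ := hg
  exact ⟨hf1.add hg1, C + C', fun x => (norm_add_le _ _).trans (add_le_add (hC x) (hC' x))⟩

lemma Bdd.sub {f g : X → ℂ} (hf : Bdd f) (hg : Bdd g) : Bdd (fun x => f x - g x) := by
  obtain ⟨hf1, C, hC⟩ := hf
  obtain ⟨hg1, C', hC'⟩ := hg
  exact ⟨hf1.sub hg1, C + C', fun x => (norm_sub_le _ _).trans (add_le_add (hC x) (hC' x))⟩

lemma Bdd.const (c : ℂ) : Bdd (fun _ : X => c) := ⟨measurable_const, ‖c‖, fun _ => le_rfl⟩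

lemma Bdd.conj {f : X → ℂ} (hf : Bdd f) : Bdd (fun x => (starRingEnd ℂ) (f x)) := by
  obtain ⟨hf1, C, hC⟩ := hf
  refine ⟨Complex.continuous_conj.measurable.comp hf1, C, fun x => ?_⟩
  rw [Complex.norm_conj]
  exact hC x

lemma Bdd.sum {ι : Type*} (s : Finset ι) {f : ι → X → ℂ} (hf : ∀ i ∈ s, Bdd (f i)) :
    Bdd (fun x => ∑ i ∈ s, f i x) := by
  classical
  induction s using Finset.induction_on with
  | empty => simpa using Bdd.const (X := X) 0
  | insert a s ha ih =>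
    simp only [Finset.sum_insert ha]
    exact (hf a (Finset.mem_insert_self a s)).add
      (ih fun i hi => hf i (Finset.mem_insert_of_mem hi))

variable (μ : Measure X) [IsProbabilityMeasure μ]

lemma Bdd.integrable {f : X → ℂ} (hf : Bdd f) : Integrable f μ := by
  obtain ⟨hf1, C, hC⟩ := hf
  exact Integrable.of_bound hf1.aestronglyMeasurable C (Filter.Eventually.of_forall hC)

lemma Bdd.integrable_norm_sq {f : X → ℂ} (hf : Bdd f) : Integrable (fun x => ‖f x‖ ^ 2) μ := by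
  obtain ⟨hf1, C, hC⟩ := hf
  refine Integrable.of_bound (hf1.norm.pow_const 2).aestronglyMeasurable (C ^ 2)
    (Filter.Eventually.of_forall fun x => ?_)
  rw [Real.norm_of_nonneg (by positivity)]
  exact pow_le_pow_left₀ (norm_nonneg _) (hC x) 2

lemma Bdd.norm_sq {f : X → ℂ} (hf : Bdd f) :
    ((∫ x, ‖f x‖ ^ 2 ∂μ : ℝ) : ℂ) = ∫ x, f x * (starRingEnd ℂ) (f x) ∂μ := by
  rw [← integral_complex_ofReal]
  congr 1
  funext x
  rw [Complex.mul_conj']
  push_cast
  rfl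

/-- Cauchy-Schwarz, dropping a function bounded by one -/
lemma cs_one {f g : X → ℂ} (hf : BM f) (hg : Bdd g) :
    ‖∫ x, f x * g x ∂μ‖ ^ 2 ≤ ∫ x, ‖g x‖ ^ 2 ∂μ := by
  have hgi : Integrable (fun x => ‖g x‖) μ := (hg.integrable μ).norm
  have hg2 := hg.integrable_norm_sq μ
  have h1 : ‖∫ x, f x * g x ∂μ‖ ≤ ∫ x, ‖g x‖ ∂μ := by
    refine (norm_integral_le_integral_norm _).trans ?_
    refine integral_mono ((hf.bdd.mul hg).integrable μ).norm hgi fun x => ?_
    show ‖f x * g x‖ ≤ ‖g x‖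
    rw [norm_mul]
    exact mul_le_of_le_one_left (norm_nonneg _) (hf.2 x)
  set m := ∫ x, ‖g x‖ ∂μ with hm
  have h2 : 0 ≤ ∫ x, (‖g x‖ - m) ^ 2 ∂μ := integral_nonneg fun x => sq_nonneg _
  have h3 : ∫ x, (‖g x‖ - m) ^ 2 ∂μ = ∫ x, ‖g x‖ ^ 2 ∂μ - m ^ 2 := by
    have h4 : ∀ x, (‖g x‖ - m) ^ 2 = ‖g x‖ ^ 2 - (2 * m * ‖g x‖ - m ^ 2) := fun x => by ring
    simp only [h4]
    rw [integral_sub hg2, integral_sub (hgi.const_mul _) (integrable_const _),
      integral_const_mul, ← hm]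
    · simp
      ring
    · exact (hgi.const_mul _).sub (integrable_const _)
  calc ‖∫ x, f x * g x ∂μ‖ ^ 2 ≤ m ^ 2 := pow_le_pow_left₀ (norm_nonneg _) h1 2
    _ ≤ _ := by linarith

end basic

section act

variable {X : Type u} [MeasurableSpace X] {μ : Measure X} [IsProbabilityMeasure μ] (S : Act μ)

lemma Act.integral_comp {E : Type*} [NormedAddCommGroup E] [NormedSpace ℝ E] (k : ℤ) {g : X → E}
    (hg : AEStronglyMeasurable g μ) : ∫ x, g (S.P k x) ∂μ = ∫ x, g x ∂μ := by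
  have h := (S.mp k).map_eq
  have h2 : ∫ x, g x ∂(μ.map (S.P k)) = ∫ x, g (S.P k x) ∂μ :=
    integral_map (S.mp k).measurable.aemeasurable (by rw [h]; exact hg)
  rw [← h2, h]

lemma BM.comp {f : X → ℂ} (hf : BM f) (k : ℤ) : BM (fun x => f (S.P k x)) :=
  ⟨hf.1.comp (S.mp k).measurable, fun x => hf.2 _⟩

lemma Bdd.comp {f : X → ℂ} (hf : Bdd f) (k : ℤ) : Bdd (fun x => f (S.P k x)) := by
  obtain ⟨hf1, C, hC⟩ := hf
  exact ⟨hf1.comp (S.mp k).measurable, C, fun x => hC _⟩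

variable {G : Type*} [AddCommGroup G] [DecidableEq G]

lemma sum_shift {M : Type*} [AddCommMonoid M] (D H : Finset G) (g : G → M)
    (hg : ∀ s, s ∉ D → g s = 0) (s : G) (hH : ∀ s' ∈ D, s' - s ∈ H) :
    ∑ s' ∈ D, g s' = ∑ h ∈ H, g (s + h) := by
  have h1 : ∑ h ∈ H, g (s + h) = ∑ y ∈ H.image (fun h => s + h), g y := by
    rw [Finset.sum_image]
    intro a _ b _ hab
    exact add_left_cancel hab
  rw [h1]
  apply Finset.sum_subset
  · intro s' hs'
    exact Finset.mem_image.2 ⟨s' - s, hH s' hs', by abel⟩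
  · intro y _ hy
    exact hg y hy

lemma sum_reflect {M : Type*} [AddCommMonoid M] (D K : Finset G) (g : G → M)
    (hg : ∀ s, s ∉ D → g s = 0) (s : G) (hK : ∀ s' ∈ D, s + s' ∈ K) :
    ∑ s' ∈ D, g s' = ∑ σ ∈ K, g (σ - s) := by
  have h1 : ∑ h ∈ K, g (h - s) = ∑ y ∈ K.image (fun h => h - s), g y := by
    rw [Finset.sum_image]
    intro a _ b _ hab
    exact sub_left_injective hab
  rw [h1]
  apply Finset.sum_subset
  · intro s' hs'
    exact Finset.mem_image.2 ⟨s + s', hK s' hs', by abel⟩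
  · intro y _ hy
    exact hg y hy

/-- expansion of the square of a sum, in complex form -/
lemma norm_sq_sum {ι : Type*} (D : Finset ι) (g : ι → X → ℂ) (hg : ∀ s ∈ D, Bdd (g s)) :
    ((∫ x, ‖∑ s ∈ D, g s x‖ ^ 2 ∂μ : ℝ) : ℂ)
      = ∑ s ∈ D, ∑ s' ∈ D, ∫ x, g s x * (starRingEnd ℂ) (g s' x) ∂μ := by
  rw [(Bdd.sum D hg).norm_sq μ]
  have h1 : ∀ x, (∑ s ∈ D, g s x) * (starRingEnd ℂ) (∑ s ∈ D, g s x)
      = ∑ s ∈ D, ∑ s' ∈ D, g s x * (starRingEnd ℂ) (g s' x) := by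
    intro x
    rw [map_sum, Finset.sum_mul_sum]
  simp only [h1]
  rw [integral_finsetSum]
  · apply Finset.sum_congr rfl
    intro s hs
    rw [integral_finsetSum]
    intro s' hs'
    exact ((hg s hs).mul (hg s' hs').conj).integrable μ
  · intro s hs
    exact (Bdd.sum D fun s' hs' => (hg s hs).mul (hg s' hs').conj).integrable μ

/-- recentering a multiple correlation -/
lemma recenter (r : ℕ) (N k : ℤ) (f : ℕ → X → ℂ) (hf : ∀ j, BM (f j)) :
    ∫ x, ∏ j ∈ range r, f j (S.P (j * N) x) ∂μ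
      = ∫ x, ∏ j ∈ range r, f j (S.P (j * N + k) x) ∂μ := by
  have h1 : Bdd (fun x => ∏ j ∈ range r, f j (S.P (j * N) x)) :=
    (BM.prod (range r) fun j => (hf j).comp S (j * N)).bdd
  rw [← S.integral_comp k h1.1.aestronglyMeasurable]
  congr 1
  funext x
  apply Finset.prod_congr rfl
  intro j _
  rw [S.add]

/-- the new functions in the van der Corput step -/
def vf (r : ℕ) (N : ℤ) (f : ℕ → X → ℂ) (j : ℕ) (y : X) : ℂ :=
  f j y * (starRingEnd ℂ) (f j (S.P ((j - r) * N) y))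

lemma vf_BM (r : ℕ) (N : ℤ) (f : ℕ → X → ℂ) (hf : ∀ j, BM (f j)) (j : ℕ) :
    BM (vf S r N f j) := (hf j).mul ((hf j).comp S _).conj

/-- **the van der Corput step** -/
theorem vdc (r : ℕ) (Lam : G →+ ℤ) (w : G → ℂ) (D H : Finset G) (hw : ∀ s, s ∉ D → w s = 0)
    (hH : ∀ s ∈ D, ∀ s' ∈ D, s' - s ∈ H) (f : ℕ → X → ℂ) (hf : ∀ j, BM (f j)) :
    ‖∑ s ∈ D, w s * ∫ x, ∏ j ∈ range (r + 1), f j (S.P (j * Lam s) x) ∂μ‖ ^ 2
      ≤ ∑ h ∈ H, ‖∑ s ∈ D, (w s * (starRingEnd ℂ) (w (s + h))) *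
          ∫ x, ∏ j ∈ range r, vf S r (Lam h) f j (S.P (j * Lam s) x) ∂μ‖ := by
  set g : G → X → ℂ := fun s z => w s * ∏ j ∈ range r, f j (S.P ((j - r) * Lam s) z) with hg
  have hgb : ∀ s, Bdd (g s) := fun s =>
    (Bdd.const (w s)).mul (BM.prod (range r) fun j => (hf j).comp S _).bdd
  have h1 : ∑ s ∈ D, w s * ∫ x, ∏ j ∈ range (r + 1), f j (S.P (j * Lam s) x) ∂μ
      = ∫ z, f r z * ∑ s ∈ D, g s z ∂μ := by
    have e1 : ∀ z, f r z * ∑ s ∈ D, g s z = ∑ s ∈ D, f r z * g s z := fun z => by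
      rw [Finset.mul_sum]
    simp only [e1]
    rw [integral_finsetSum]
    · apply Finset.sum_congr rfl
      intro s _
      rw [recenter S (r + 1) (Lam s) (-(r * Lam s)) f hf, ← integral_const_mul]
      congr 1
      funext z
      rw [Finset.prod_range_succ]
      have e2 : (r : ℤ) * Lam s + -(r * Lam s) = 0 := by ring
      rw [e2, S.zero, hg]
      simp only
      have e3 : ∀ j : ℕ, (j : ℤ) * Lam s + -(r * Lam s) = (j - r) * Lam s := fun j => by ring
      simp only [e3]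
      ring
    · intro s _
      exact ((hf r).bdd.mul (hgb s)).integrable μ
  rw [h1]
  refine (cs_one μ (hf r) (Bdd.sum D fun s _ => hgb s)).trans ?_
  have h2 : ((∫ x, ‖∑ s ∈ D, g s x‖ ^ 2 ∂μ : ℝ) : ℂ)
      = ∑ h ∈ H, ∑ s ∈ D, (w s * (starRingEnd ℂ) (w (s + h))) *
          ∫ x, ∏ j ∈ range r, vf S r (Lam h) f j (S.P (j * Lam s) x) ∂μ := by
    rw [norm_sq_sum D g fun s _ => hgb s, Finset.sum_comm]
    rw [Finset.sum_comm]
    rw [Finset.sum_comm (s := H)]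
    apply Finset.sum_congr rfl
    intro s hs
    rw [sum_shift D H (fun s' => ∫ x, g s x * (starRingEnd ℂ) (g s' x) ∂μ) _ s (hH s hs)]
    · apply Finset.sum_congr rfl
      intro h _
      rw [recenter S r (Lam s) (-(r * Lam s)) _ (vf_BM S r (Lam h) f hf), ← integral_const_mul]
      congr 1
      funext z
      rw [hg]
      simp only [map_mul, map_prod]
      have e4 : ∏ j ∈ range r, vf S r (Lam h) f j (S.P (j * Lam s + -(r * Lam s)) z)
          = (∏ j ∈ range r, f j (S.P ((j - r) * Lam s) z)) *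
            ∏ j ∈ range r, (starRingEnd ℂ) (f j (S.P ((j - r) * Lam (s + h)) z)) := by
        rw [← Finset.prod_mul_distrib]
        apply Finset.prod_congr rfl
        intro j _
        unfold vf
        rw [← S.add]
        have e5 : (j : ℤ) * Lam s + -(r * Lam s) = (j - r) * Lam s := by ring
        have e6 : ((j : ℤ) - r) * Lam h + (j * Lam s + -(r * Lam s)) = (j - r) * Lam (s + h) := by
          rw [map_add]; ring
        rw [e6, e5]
      rw [e4]
      ring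
    · intro s' hs'
      rw [hg]
      simp only [hw s' hs', zero_mul, map_zero, mul_zero, integral_zero]
  have h3 : ∫ x, ‖∑ s ∈ D, g s x‖ ^ 2 ∂μ = ‖((∫ x, ‖∑ s ∈ D, g s x‖ ^ 2 ∂μ : ℝ) : ℂ)‖ := by
    rw [Complex.norm_real, Real.norm_of_nonneg (integral_nonneg fun x => by positivity)]
  rw [h3, h2]
  exact norm_sum_le _ _

/-- the function of the three-term step -/
def tf (N : ℤ) (f : ℕ → X → ℂ) (y : X) : ℂ := f 0 y * (starRingEnd ℂ) (f 2 (S.P N y))

lemma tf_BM (N : ℤ) (f : ℕ → X → ℂ) (hf : ∀ j, BM (f j)) : BM (tf S N f) :=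
  (hf 0).mul ((hf 2).comp S _).conj

/-- **the three-term step** -/
theorem three (Lam : G →+ ℤ) (w : G → ℂ) (D K : Finset G) (hw : ∀ s, s ∉ D → w s = 0)
    (hK : ∀ s ∈ D, ∀ s' ∈ D, s + s' ∈ K) (f : ℕ → X → ℂ) (hf : ∀ j, BM (f j))
    (b : G → ℝ) (hb : ∀ σ ∈ K, 0 ≤ b σ)
    (hop : ∀ σ ∈ K, ∀ v : X → ℂ, Bdd v →
      ∫ x, ‖∑ s ∈ D, (w s * (starRingEnd ℂ) (w (σ - s))) * v (S.P (Lam (σ - s - s)) x)‖ ^ 2 ∂μ
        ≤ b σ ^ 2 * ∫ x, ‖v x‖ ^ 2 ∂μ) :
    ‖∑ s ∈ D, w s * ∫ x, ∏ j ∈ range 3, f j (S.P (j * Lam s) x) ∂μ‖ ^ 2 ≤ ∑ σ ∈ K, b σ := by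
  set g : G → X → ℂ := fun s z => w s * (f 0 (S.P (-Lam s) z) * f 2 (S.P (Lam s) z)) with hg
  have hgb : ∀ s, Bdd (g s) := fun s =>
    (Bdd.const (w s)).mul (((hf 0).comp S _).mul ((hf 2).comp S _)).bdd
  have h1 : ∑ s ∈ D, w s * ∫ x, ∏ j ∈ range 3, f j (S.P (j * Lam s) x) ∂μ
      = ∫ z, f 1 z * ∑ s ∈ D, g s z ∂μ := by
    have e1 : ∀ z, f 1 z * ∑ s ∈ D, g s z = ∑ s ∈ D, f 1 z * g s z := fun z => by
      rw [Finset.mul_sum]
    simp only [e1]
    rw [integral_finsetSum]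
    · apply Finset.sum_congr rfl
      intro s _
      rw [recenter S 3 (Lam s) (-(Lam s)) f hf, ← integral_const_mul]
      congr 1
      funext z
      simp only [Finset.prod_range_succ, Finset.prod_range_zero, hg]
      have e2 : ((0 : ℕ) : ℤ) * Lam s + -(Lam s) = -Lam s := by push_cast; ring
      have e3 : ((1 : ℕ) : ℤ) * Lam s + -(Lam s) = 0 := by push_cast; ring
      have e4 : ((2 : ℕ) : ℤ) * Lam s + -(Lam s) = Lam s := by push_cast; ring
      rw [e2, e3, e4, S.zero]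
      ring
    · intro s _
      exact ((hf 1).bdd.mul (hgb s)).integrable μ
  rw [h1]
  refine (cs_one μ (hf 1) (Bdd.sum D fun s _ => hgb s)).trans ?_
  set V : G → X → ℂ := fun σ x =>
    ∑ s ∈ D, (w s * (starRingEnd ℂ) (w (σ - s))) * tf S (Lam σ) f (S.P (Lam (σ - s - s)) x) with hV
  have htf : ∀ σ, BM (tf S (Lam σ) f) := fun σ => tf_BM S (Lam σ) f hf
  have h2 : ((∫ x, ‖∑ s ∈ D, g s x‖ ^ 2 ∂μ : ℝ) : ℂ)
      = ∑ σ ∈ K, ∫ x, (starRingEnd ℂ) (tf S (Lam σ) f x) * V σ x ∂μ := by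
    have e0 : ∀ σ, ∫ x, (starRingEnd ℂ) (tf S (Lam σ) f x) * V σ x ∂μ
        = ∑ s ∈ D, (w s * (starRingEnd ℂ) (w (σ - s))) *
          ∫ x, (starRingEnd ℂ) (tf S (Lam σ) f x) * tf S (Lam σ) f (S.P (Lam (σ - s - s)) x) ∂μ := by
      intro σ
      have e1 : ∀ x, (starRingEnd ℂ) (tf S (Lam σ) f x) * V σ x
          = ∑ s ∈ D, (w s * (starRingEnd ℂ) (w (σ - s))) *
            ((starRingEnd ℂ) (tf S (Lam σ) f x) * tf S (Lam σ) f (S.P (Lam (σ - s - s)) x)) := by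
        intro x
        rw [hV]
        simp only
        rw [Finset.mul_sum]
        apply Finset.sum_congr rfl
        intro s _
        ring
      simp only [e1]
      rw [integral_finsetSum]
      · apply Finset.sum_congr rfl
        intro s _
        rw [integral_const_mul]
      · intro s _
        exact ((Bdd.const _).mul ((htf σ).conj.mul ((htf σ).comp S _)).bdd).integrable μ
    simp only [e0]
    rw [norm_sq_sum D g fun s _ => hgb s, Finset.sum_comm (s := K)]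
    apply Finset.sum_congr rfl
    intro s hs
    rw [sum_reflect D K (fun s' => ∫ x, g s x * (starRingEnd ℂ) (g s' x) ∂μ) _ s (hK s hs)]
    · apply Finset.sum_congr rfl
      intro σ _
      have e7 : Bdd (fun x => (starRingEnd ℂ) (tf S (Lam σ) f x) *
          tf S (Lam σ) f (S.P (Lam (σ - s - s)) x)) := ((htf σ).conj.mul ((htf σ).comp S _)).bdd
      rw [← S.integral_comp (-(Lam (σ - s))) e7.1.aestronglyMeasurable, ← integral_const_mul]
      congr 1
      funext z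
      rw [hg]
      simp only [map_mul, tf, Complex.conj_conj]
      rw [← S.add, ← S.add, ← S.add]
      have e8 : Lam σ + -(Lam (σ - s)) = Lam s := by rw [map_sub]; ring
      have e9 : Lam (σ - s - s) + -(Lam (σ - s)) = -Lam s := by
        simp only [map_sub]; ring
      have e10 : Lam σ + -Lam s = Lam (σ - s) := by
        simp only [map_sub]; ring
      rw [e8, e9, e10]
      ring
    · intro s' hs'
      rw [hg]
      simp only [hw s' hs', zero_mul, map_zero, mul_zero, integral_zero]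
  have h3 : ∫ x, ‖∑ s ∈ D, g s x‖ ^ 2 ∂μ = ‖((∫ x, ‖∑ s ∈ D, g s x‖ ^ 2 ∂μ : ℝ) : ℂ)‖ := by
    rw [Complex.norm_real, Real.norm_of_nonneg (integral_nonneg fun x => by positivity)]
  rw [h3, h2]
  refine (norm_sum_le _ _).trans ?_
  apply Finset.sum_le_sum
  intro σ hσ
  have hVb : Bdd (V σ) := Bdd.sum D fun s _ => (Bdd.const _).mul ((htf σ).comp S _).bdd
  have h4 := cs_one μ (htf σ).conj hVb
  have h5 := hop σ hσ (tf S (Lam σ) f) (htf σ).bdd
  have h6 : ∫ x, ‖tf S (Lam σ) f x‖ ^ 2 ∂μ ≤ 1 := by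
    have : ∫ x, ‖tf S (Lam σ) f x‖ ^ 2 ∂μ ≤ ∫ _x, (1 : ℝ) ∂μ := by
      refine integral_mono ((htf σ).bdd.integrable_norm_sq μ) (integrable_const _) fun x => ?_
      exact pow_le_one₀ (norm_nonneg _) ((htf σ).2 x)
    simpa using this
  have h7 : ‖∫ x, (starRingEnd ℂ) (tf S (Lam σ) f x) * V σ x ∂μ‖ ^ 2 ≤ b σ ^ 2 := by
    refine h4.trans (h5.trans ?_)
    exact mul_le_of_le_one_right (sq_nonneg _) h6
  exact (sq_le_sq₀ (norm_nonneg _) (hb σ hσ)).1 h7

end act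

end Pool.Agent.H82.KRec
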