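import Pool.Agent.H82.KRec.Weight
import Pool.Graph.R_seed8.H602R3.DHJ.Main

/-!
Positivity: some element of the digit set is a return time.
-/

namespace Pool.Agent.H82.KRec

open Finset MeasureTheory
open Pool.Agent.H602R3.DHJ (av dn ap Pr LFr dhj av_const av_mono av_nonneg av_add av_sum av_mul
  av_equiv av_prod exists_le_av dn_le_one)

universe u

set_option linter.unusedSectionVars false
set_option linter.unusedVariables false

/-- the top digit of a block -/
def top (m : ℕ) : ℤ × (Fin m → ℤ) := (4, fun _ => 1)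

lemma top_mem (m : ℕ) : top m ∈ DD m := mem_DD.2 ⟨by simp [top], fun l => Or.inr rfl⟩

lemma wt_full (m : ℕ) (z : ℂ) (s : ℤ × (Fin m → ℤ)) (hs : s ∈ DD m) :
    wt m m z s = if s = top m then z else 1 := by
  unfold wt
  rw [if_pos ⟨hs, fun l hl => absurd l.2 (by omega)⟩]
  by_cases h : s = top m
  · rw [if_pos h, if_pos]
    subst h
    exact ⟨rfl, fun l _ => rfl⟩
  · rw [if_neg h, if_neg]
    rintro ⟨h1, h2⟩
    apply h
    ext l
    · exact h1
    · exact h2 l l.2

/-- the digits of a block, as a type -/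
abbrev Dg (m : ℕ) : Type := {s : ℤ × (Fin m → ℤ) // s ∈ DD m}

lemma sum_Dg {M : Type*} [AddCommMonoid M] (m : ℕ) (ι : Type) [Fintype ι] [DecidableEq ι]
    (F : (ι → ℤ × (Fin m → ℤ)) → M) :
    ∑ t : ι → Dg m, F (fun i => (t i : ℤ × (Fin m → ℤ)))
      = ∑ s ∈ Fintype.piFinset (fun _ : ι => DD m), F s := by
  refine Finset.sum_bij' (fun (t : ι → Dg m) _ => fun i => (t i : ℤ × (Fin m → ℤ)))
    (fun s hs => fun i => (⟨s i, Fintype.mem_piFinset.1 hs i⟩ : Dg m))
    (fun t _ => Fintype.mem_piFinset.2 fun i => (t i).2) (fun s _ => Finset.mem_univ _)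
    (fun t _ => rfl) (fun s _ => rfl) (fun t _ => rfl)

lemma exists_zeta : ∃ z : ℂ, Cube z := by
  refine ⟨⟨-1 / 2, Real.sqrt 3 / 2⟩, ?_, ?_⟩
  · have h : Real.sqrt 3 * Real.sqrt 3 = 3 := Real.mul_self_sqrt (by norm_num)
    rw [Complex.norm_def, Complex.normSq_apply]
    simp only
    rw [show (-1 / 2 : ℝ) * (-1 / 2) + Real.sqrt 3 / 2 * (Real.sqrt 3 / 2) = 1 by nlinarith]
    simp
  · have h : Real.sqrt 3 * Real.sqrt 3 = 3 := Real.mul_self_sqrt (by norm_num)
    apply Complex.ext
    · simp [sq, Complex.mul_re]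
      nlinarith
    · simp [sq, Complex.mul_im]
      ring

section dyn

variable {X : Type u} [MeasurableSpace X] {μ : Measure X} [IsProbabilityMeasure μ] (S : Act μ)
  (A : Set X)

/-- the return function -/
noncomputable def nu (m : ℕ) (N : ℤ) : ℝ := μ.real {x | ∀ j ∈ range (m + 3), S.P (j * N) x ∈ A}

lemma nu_nonneg (m : ℕ) (N : ℤ) : 0 ≤ nu S A m N := measureReal_nonneg

variable {A}

lemma meas_P (hA : MeasurableSet A) (k : ℤ) : MeasurableSet {x | S.P k x ∈ A} :=
  (S.mp k).measurable hA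

lemma meas_all (hA : MeasurableSet A) (m : ℕ) (N k : ℤ) :
    MeasurableSet {x | ∀ j ∈ range (m + 3), S.P (j * N + k) x ∈ A} := by
  have : {x | ∀ j ∈ range (m + 3), S.P (j * N + k) x ∈ A}
      = ⋂ j ∈ range (m + 3), {x | S.P (j * N + k) x ∈ A} := by
    ext x
    simp
  rw [this]
  exact Finset.measurableSet_biInter _ fun j _ => meas_P S hA _

lemma meas_all' (hA : MeasurableSet A) (m : ℕ) (N : ℤ) :
    MeasurableSet {x | ∀ j ∈ range (m + 3), S.P (j * N) x ∈ A} := by
  simpa using meas_all S hA m N 0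

lemma shifted (hA : MeasurableSet A) (m : ℕ) (N k : ℤ) :
    μ.real {x | ∀ j ∈ range (m + 3), S.P (j * N + k) x ∈ A} = nu S A m N := by
  have h1 : {x | ∀ j ∈ range (m + 3), S.P (j * N + k) x ∈ A}
      = S.P k ⁻¹' {x | ∀ j ∈ range (m + 3), S.P (j * N) x ∈ A} := by
    ext x
    simp only [Set.mem_preimage, Set.mem_ofPred_eq, S.add]
  rw [h1, nu]
  unfold Measure.real
  rw [(S.mp k).measure_preimage (meas_all' S hA m N).nullMeasurableSet]

/-- the indicator of `A` -/
noncomputable def ff (A : Set X) (x : X) : ℂ := A.indicator (fun _ => (1 : ℂ)) x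

lemma ff_BM (hA : MeasurableSet A) : BM (ff A) := by
  refine ⟨measurable_const.indicator hA, fun x => ?_⟩
  unfold ff
  by_cases h : x ∈ A
  · rw [Set.indicator_of_mem h, norm_one]
  · rw [Set.indicator_of_notMem h, norm_zero]
    exact zero_le_one

lemma nu_integral (hA : MeasurableSet A) (m : ℕ) (N : ℤ) :
    ∫ x, ∏ j ∈ range (m + 3), ff A (S.P (j * N) x) ∂μ = ((nu S A m N : ℝ) : ℂ) := by
  have h1 : ∀ x, ∏ j ∈ range (m + 3), ff A (S.P (j * N) x)
      = {x | ∀ j ∈ range (m + 3), S.P (j * N) x ∈ A}.indicator (fun _ => (1 : ℂ)) x := by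
    intro x
    by_cases h : x ∈ {x | ∀ j ∈ range (m + 3), S.P (j * N) x ∈ A}
    · rw [Set.indicator_of_mem h]
      apply Finset.prod_eq_one
      intro j hj
      unfold ff
      rw [Set.indicator_of_mem (h j hj)]
    · rw [Set.indicator_of_notMem h]
      have h' : ∃ j ∈ range (m + 3), S.P (j * N) x ∉ A := by
        by_contra hcon
        push Not at hcon
        exact h hcon
      obtain ⟨j, hj, hjA⟩ := h'
      apply Finset.prod_eq_zero hj
      unfold ff
      rw [Set.indicator_of_notMem hjA]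
  simp only [h1]
  rw [integral_indicator (meas_all' S hA m N)]
  simp [nu]

theorem decay (m : ℕ) : ∃ C : ℝ, 0 ≤ C ∧ C < Fintype.card (Dg m) ∧
    ∀ (A : Set X), MeasurableSet A → ∀ (ι : Type) [Fintype ι] [DecidableEq ι]
      (lam : ι → ℤ × (Fin m → ℤ) →+ ℤ),
      (∀ t : ι → Dg m, ¬ 3 ∣ (univ.filter fun i => (t i : ℤ × (Fin m → ℤ)) = top m).card →
        nu S A m (∑ i, lam i (t i)) = 0) →
      ∑ t : ι → Dg m, nu S A m (∑ i, lam i (t i)) ≤ C ^ Fintype.card ι := by
  classical
  obtain ⟨z, hz⟩ := exists_zeta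
  have hz3 : z ^ 3 = 1 := by linear_combination (z - 1) * hz.2
  obtain ⟨C, hC1, hC2⟩ := chain_gain S m m le_rfl z hz
  have hcard : ∑ s ∈ DD m, ‖wt m m z s‖ = Fintype.card (Dg m) := by
    have h1 : ∀ s ∈ DD m, ‖wt m m z s‖ = 1 := by
      intro s hs
      rw [wt_full m z s hs]
      split_ifs
      · exact hz.1
      · exact norm_one
    rw [Finset.sum_congr rfl h1, Finset.sum_const, nsmul_eq_mul, mul_one, Fintype.card_coe]
  rw [hcard] at hC1
  refine ⟨C, hC2.nonneg S, hC1, ?_⟩
  intro A hA ι _ _ lam hzero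
  set n := Fintype.card ι with hn
  have e : ι ≃ Fin n := Fintype.equivFin ι
  have key := multi S (DD m) n (fun i => lam (e.symm i)) m (fun _ => wt m m z) (fun _ => C)
    (fun _ s hs => wt_off m m z s hs) (fun _ => hC2) (fun _ => ff A) (fun _ => ff_BM hA)
  rw [Finset.prod_const, Finset.card_univ, Fintype.card_fin] at key
  rw [← sum_Dg m (Fin n) (fun s => (∏ i, wt m m z (s i)) *
    ∫ x, ∏ j ∈ range (m + 3), ff A (S.P (j * LamProd (fun i => lam (e.symm i)) s) x) ∂μ)] at key
  have h1 : ∑ t : Fin n → Dg m, (∏ i, wt m m z (t i)) *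
      ∫ x, ∏ j ∈ range (m + 3), ff A (S.P (j * LamProd (fun i => lam (e.symm i))
        (fun i => (t i : ℤ × (Fin m → ℤ)))) x) ∂μ
      = ((∑ t : ι → Dg m, nu S A m (∑ i, lam i (t i)) : ℝ) : ℂ) := by
    rw [← Equiv.sum_comp (Equiv.arrowCongr e (Equiv.refl (Dg m)))]
    push_cast
    apply Finset.sum_congr rfl
    intro t _
    rw [nu_integral S hA, LamProd_apply]
    have e1 : ∑ i, lam (e.symm i) ((Equiv.arrowCongr e (Equiv.refl (Dg m))) t i : Dg m)
        = ∑ i, lam i (t i) := by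
      rw [← Equiv.sum_comp e]
      apply Finset.sum_congr rfl
      intro i _
      simp [Equiv.arrowCongr]
    have e2 : ∏ i, wt m m z ((Equiv.arrowCongr e (Equiv.refl (Dg m))) t i : Dg m)
        = ∏ i, wt m m z (t i) := by
      rw [← Equiv.prod_comp e]
      apply Finset.prod_congr rfl
      intro i _
      simp [Equiv.arrowCongr]
    rw [e1, e2]
    by_cases h3 : 3 ∣ (univ.filter fun i => (t i : ℤ × (Fin m → ℤ)) = top m).card
    · have h4 : ∏ i, wt m m z (t i) = 1 := by
        have h5 : ∀ i, wt m m z (t i) = if (t i : ℤ × (Fin m → ℤ)) = top m then z else 1 :=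
          fun i => wt_full m z _ (t i).2
        simp only [h5]
        rw [Finset.prod_ite, Finset.prod_const, Finset.prod_const_one, mul_one]
        obtain ⟨k, hk⟩ := h3
        rw [hk, pow_mul, hz3, one_pow]
      rw [h4, one_mul]
    · rw [hzero t h3]
      simp
  rw [h1, Complex.norm_real] at key
  exact (le_abs_self _).trans key

/-- base point of a line -/
def bs {m d : ℕ} (φ : Fin d → Fin (m + 3) ⊕ Unit) (e : Fin d → ℤ) : ℤ :=
  ∑ j, Sum.elim (fun c : Fin (m + 3) => ((c : ℕ) : ℤ) * e j) (fun _ => 0) (φ j)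

/-- step of a line -/
def st {m d : ℕ} (φ : Fin d → Fin (m + 3) ⊕ Unit) (e : Fin d → ℤ) : ℤ :=
  ∑ j, Sum.elim (fun _ : Fin (m + 3) => 0) (fun _ => e j) (φ j)

lemma line_sum {m d : ℕ} (φ : Fin d → Fin (m + 3) ⊕ Unit) (e : Fin d → ℤ) (a : Fin (m + 3)) :
    ∑ j, (((ap φ (fun _ => a)) j : Fin (m + 3)) : ℕ) * e j = ((a : ℕ) : ℤ) * st φ e + bs φ e := by
  unfold st bs ap
  rw [Finset.mul_sum, ← Finset.sum_add_distrib]
  apply Finset.sum_congr rfl
  intro j _
  rcases h : φ j with c | u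
  · simp
  · simp

open Classical in
theorem ip_szemeredi (m : ℕ) (hA : MeasurableSet A) (δ : ℝ) (hδ : 0 < δ) (hμ : δ ≤ μ.real A)
    (d : ℕ) (hd : ∀ B : Set (Fin d → Fin (m + 3)), LFr B → dn B < δ / 2) (e : Fin d → ℤ) :
    δ / 2 ≤ ∑ φ : Fin d → Fin (m + 3) ⊕ Unit, if Pr φ then nu S A m (st φ e) else 0 := by
  set B : (Fin d → Fin (m + 3)) → Set X := fun z =>
    {x | S.P (∑ j, ((z j : ℕ) : ℤ) * e j) x ∈ A} with hB
  set Cc : (Fin d → Fin (m + 3) ⊕ Unit) → Set X := fun φ =>
    {x | ∀ j ∈ range (m + 3), S.P (j * st φ e + bs φ e) x ∈ A} with hCc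
  have hBm : ∀ z, MeasurableSet (B z) := fun z => meas_P S hA _
  have hCm : ∀ φ, MeasurableSet (Cc φ) := fun φ => meas_all S hA m _ _
  have hBμ : ∀ z, μ.real (B z) = μ.real A := by
    intro z
    have h1 := (S.mp (∑ j, ((z j : ℕ) : ℤ) * e j)).measure_preimage hA.nullMeasurableSet
    unfold Measure.real
    rw [← h1]
    rfl
  have hCμ : ∀ φ, μ.real (Cc φ) = nu S A m (st φ e) := fun φ => shifted S hA m _ _
  have hpt : ∀ x, av (fun z => (B z).indicator (fun _ => (1 : ℝ)) x) ≤ δ / 2 +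
      ∑ φ : Fin d → Fin (m + 3) ⊕ Unit,
        if Pr φ then (Cc φ).indicator (fun _ => (1 : ℝ)) x else 0 := by
    intro x
    have hnn : ∀ φ : Fin d → Fin (m + 3) ⊕ Unit, 0 ≤
        (if Pr φ then (Cc φ).indicator (fun _ => (1 : ℝ)) x else 0) := by
      intro φ
      split_ifs
      · exact Set.indicator_nonneg (fun _ _ => zero_le_one) x
      · exact le_rfl
    have hdn : av (fun z => (B z).indicator (fun _ => (1 : ℝ)) x) = dn {z | x ∈ B z} := by
      unfold dn
      congr 1
    rw [hdn]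
    by_cases hx : LFr {z | x ∈ B z}
    · have h1 := hd _ hx
      have h2 := Finset.sum_nonneg (s := Finset.univ) fun φ _ => hnn φ
      linarith
    · unfold LFr at hx
      push Not at hx
      obtain ⟨V, hV, hVA⟩ := hx
      have h1 : x ∈ Cc V := by
        intro j hj
        have h2 := hVA ⟨j, Finset.mem_range.1 hj⟩
        simp only [hB, Set.mem_ofPred_eq, line_sum] at h2
        exact h2
      have h3 := Finset.single_le_sum (f := fun φ : Fin d → Fin (m + 3) ⊕ Unit =>
        (if Pr φ then (Cc φ).indicator (fun _ => (1 : ℝ)) x else 0)) (fun φ _ => hnn φ)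
        (Finset.mem_univ V)
      rw [if_pos hV, Set.indicator_of_mem h1] at h3
      have h4 := dn_le_one {z | x ∈ B z}
      linarith
  have hi0 : ∀ E : Set X, MeasurableSet E → Integrable (E.indicator fun _ => (1 : ℝ)) μ :=
    fun E hE => (integrable_const 1).indicator hE
  have hi1 : Integrable (fun x => av (fun z => (B z).indicator (fun _ => (1 : ℝ)) x)) μ := by
    unfold av
    apply Integrable.div_const
    exact integrable_finsetSum _ fun z _ => hi0 _ (hBm z)
  have hi3 : ∀ φ : Fin d → Fin (m + 3) ⊕ Unit,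
      Integrable (fun x => if Pr φ then (Cc φ).indicator (fun _ => (1 : ℝ)) x else 0) μ := by
    intro φ
    by_cases h : Pr φ
    · simp only [if_pos h]
      exact hi0 _ (hCm φ)
    · simp only [if_neg h]
      exact integrable_zero _ _ _
  have hi2 : Integrable (fun x => δ / 2 + ∑ φ : Fin d → Fin (m + 3) ⊕ Unit,
        if Pr φ then (Cc φ).indicator (fun _ => (1 : ℝ)) x else 0) μ :=
    (integrable_const _).add (integrable_finsetSum _ fun φ _ => hi3 φ)
  have h1 := integral_mono hi1 hi2 hpt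
  have hint : ∀ E : Set X, MeasurableSet E →
      ∫ x, E.indicator (fun _ => (1 : ℝ)) x ∂μ = μ.real E := by
    intro E hE
    rw [integral_indicator hE]
    simp
  have e1 : ∫ x, av (fun z => (B z).indicator (fun _ => (1 : ℝ)) x) ∂μ = μ.real A := by
    unfold av
    rw [integral_div, integral_finsetSum _ fun z _ => hi0 _ (hBm z)]
    have : ∀ z ∈ (Finset.univ : Finset (Fin d → Fin (m + 3))),
        ∫ x, (B z).indicator (fun _ => (1 : ℝ)) x ∂μ = μ.real A := by
      intro z _
      rw [hint _ (hBm z), hBμ]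
    rw [Finset.sum_congr rfl this]
    exact av_const (X := Fin d → Fin (m + 3)) (μ.real A)
  have e2 : ∫ x, (δ / 2 + ∑ φ : Fin d → Fin (m + 3) ⊕ Unit,
        if Pr φ then (Cc φ).indicator (fun _ => (1 : ℝ)) x else 0) ∂μ
      = δ / 2 + ∑ φ : Fin d → Fin (m + 3) ⊕ Unit, if Pr φ then nu S A m (st φ e) else 0 := by
    rw [integral_add (integrable_const _) (integrable_finsetSum _ fun φ _ => hi3 φ),
      integral_finsetSum _ fun φ _ => hi3 φ]
    congr 1
    · simp
    · apply Finset.sum_congr rfl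
      intro φ _
      by_cases h : Pr φ
      · simp only [if_pos h]
        rw [hint _ (hCm φ), hCμ]
      · simp only [if_neg h]
        simp
  rw [e1, e2] at h1
  linarith

/-- the internal form of the digit set -/
def InS (m : ℕ) (Val : ℕ → ℤ × (Fin m → ℤ) →+ ℤ) (N : ℤ) : Prop :=
  ∃ (J : Finset ℕ) (s : ℕ → ℤ × (Fin m → ℤ)), (∀ i ∈ J, s i ∈ DD m) ∧
    ¬ 3 ∣ (J.filter (fun i => s i = top m)).card ∧ N = ∑ i ∈ J, Val i (s i)

lemma inS_of (m : ℕ) (Val : ℕ → ℤ × (Fin m → ℤ) →+ ℤ) {ι : Type} [Fintype ι] [DecidableEq ι]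
    (g : ι → ℕ) (hg : Function.Injective g) (t : ι → Dg m)
    (h3 : ¬ 3 ∣ (Finset.univ.filter fun i => (t i : ℤ × (Fin m → ℤ)) = top m).card) :
    InS m Val (∑ i, Val (g i) (t i)) := by
  classical
  refine ⟨Finset.univ.image g,
    Function.extend g (fun i => (t i : ℤ × (Fin m → ℤ))) 0, ?_, ?_, ?_⟩
  · intro i hi
    obtain ⟨p, _, rfl⟩ := Finset.mem_image.1 hi
    rw [hg.extend_apply]
    exact (t p).2
  · have h1 : (Finset.univ.image g).filter
        (fun i => Function.extend g (fun i => (t i : ℤ × (Fin m → ℤ))) 0 i = top m)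
        = (Finset.univ.filter fun i => (t i : ℤ × (Fin m → ℤ)) = top m).image g := by
      ext k
      simp only [Finset.mem_filter, Finset.mem_image, Finset.mem_univ, true_and]
      constructor
      · rintro ⟨⟨p, rfl⟩, h⟩
        rw [hg.extend_apply] at h
        exact ⟨p, h, rfl⟩
      · rintro ⟨p, h, rfl⟩
        refine ⟨⟨p, rfl⟩, ?_⟩
        rw [hg.extend_apply]; exact h
    rw [h1, Finset.card_image_of_injective _ hg]
    exact h3
  · rw [Finset.sum_image (fun a _ b _ h => hg h)]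
    apply Finset.sum_congr rfl
    intro p _
    rw [hg.extend_apply]

lemma av_restrict {n Ω : Type} [Fintype n] [DecidableEq n] [Fintype Ω] [Nonempty Ω]
    (p : n → Prop) [DecidablePred p] (H : ({a // p a} → Ω) → ℝ) :
    av (fun u : n → Ω => H (fun k => u k)) = av H := by
  have h1 := av_equiv (Equiv.piEquivPiSubtypeProd p (fun _ => Ω))
    (fun q : ({a // p a} → Ω) × ({a // ¬ p a} → Ω) => H q.1)
  have h2 : av (fun q : ({a // p a} → Ω) × ({a // ¬ p a} → Ω) => H q.1) = av H := by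
    rw [av_prod]
    congr 1
    funext x
    exact av_const (X := ({a // ¬ p a} → Ω)) (H x)
  rw [h2] at h1
  rw [← h1]
  rfl

instance (m : ℕ) : Nonempty (Dg m) := ⟨⟨top m, top_mem m⟩⟩

theorem positivity_main (m : ℕ) (Val : ℕ → ℤ × (Fin m → ℤ) →+ ℤ) (hA : MeasurableSet A)
    (hpos : 0 < μ A) : ∃ N, InS m Val N ∧ 0 < nu S A m N := by
  classical
  by_contra hcon
  push Not at hcon
  have hzero : ∀ N, InS m Val N → nu S A m N = 0 := fun N hN =>
    le_antisymm (hcon N hN) (nu_nonneg S A m N)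
  set δ : ℝ := μ.real A with hδdef
  have hδ : 0 < δ := by
    rw [hδdef, Measure.real]
    exact ENNReal.toReal_pos hpos.ne' (measure_ne_top μ A)
  obtain ⟨C, hC0, hC1, hdec⟩ := decay S m
  obtain ⟨d, hd⟩ := dhj (m + 2) (δ / 2) (by linarith)
  set Q : ℝ := (Fintype.card (Fin d → Fin (m + 3) ⊕ Unit) : ℝ) with hQ
  have hQpos : 0 < Q := by
    rw [hQ]
    exact_mod_cast Fintype.card_pos
  set c : ℝ := δ / 2 / Q with hc
  have hcpos : 0 < c := by positivity
  set K : ℝ := (Fintype.card (Dg m) : ℝ) with hK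
  have hKpos : 0 < K := by
    rw [hK]
    exact_mod_cast Fintype.card_pos
  have hρ0 : 0 ≤ C / K := by positivity
  have hρ1 : C / K < 1 := (div_lt_one hKpos).2 hC1
  obtain ⟨M, hM⟩ : ∃ M : ℕ, (C / K) ^ M < c := exists_pow_lt_of_lt_one hcpos hρ1
  let idx : Fin d × Fin M → ℕ := fun p => (finProdFinEquiv p : ℕ)
  have hidx : Function.Injective idx := by
    intro p q hpq
    exact finProdFinEquiv.injective (Fin.ext hpq)
  let ee : (Fin d × Fin M → Dg m) → Fin d → ℤ := fun t j =>
    ∑ i : Fin M, Val (idx (j, i)) (t (j, i))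
  have h1 : ∀ t, δ / 2 ≤ ∑ φ : Fin d → Fin (m + 3) ⊕ Unit,
      if Pr φ then nu S A m (st φ (ee t)) else 0 := fun t =>
    ip_szemeredi S m hA δ hδ le_rfl d hd (ee t)
  have h2 : δ / 2 ≤ ∑ φ : Fin d → Fin (m + 3) ⊕ Unit,
      av (fun t => if Pr φ then nu S A m (st φ (ee t)) else 0) := by
    have h3 : av (fun _ : Fin d × Fin M → Dg m => δ / 2) ≤
        av (fun t => ∑ φ : Fin d → Fin (m + 3) ⊕ Unit,
          if Pr φ then nu S A m (st φ (ee t)) else 0) := av_mono h1
    rw [av_const, av_sum] at h3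
    exact h3
  obtain ⟨φ, hφ⟩ : ∃ φ : Fin d → Fin (m + 3) ⊕ Unit,
      c ≤ av (fun t => if Pr φ then nu S A m (st φ (ee t)) else 0) := by
    by_contra hcon2
    push Not at hcon2
    have h3 : ∑ φ : Fin d → Fin (m + 3) ⊕ Unit,
        av (fun t => if Pr φ then nu S A m (st φ (ee t)) else 0) <
        ∑ _φ : Fin d → Fin (m + 3) ⊕ Unit, c :=
      Finset.sum_lt_sum_of_nonempty Finset.univ_nonempty fun φ _ => hcon2 φ
    have h4 : ∑ _φ : Fin d → Fin (m + 3) ⊕ Unit, c = δ / 2 := by
      rw [Finset.sum_const, Finset.card_univ, nsmul_eq_mul, ← hQ, hc]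
      field_simp
    linarith
  have hline : Pr φ := by
    by_contra hno
    simp only [if_neg hno] at hφ
    rw [av_const] at hφ
    linarith
  simp only [if_pos hline] at hφ
  obtain ⟨j0, hj0⟩ := hline ()
  -- the relevant coordinates
  have hst : ∀ t, st φ (ee t) = ∑ p : {p : Fin d × Fin M // φ p.1 = Sum.inr ()},
      Val (idx p) (t p) := by
    intro t
    unfold st
    have e1 : ∑ p : {p : Fin d × Fin M // φ p.1 = Sum.inr ()}, Val (idx p) (t p)
        = ∑ p : Fin d × Fin M, if φ p.1 = Sum.inr () then Val (idx p) (t p) else 0 := by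
      rw [← Finset.sum_filter]
      exact (Finset.sum_subtype (p := fun p : Fin d × Fin M => φ p.1 = Sum.inr ()) _
        (by intro x; simp) (fun p : Fin d × Fin M => Val (idx p) (t p))).symm
    rw [e1, Fintype.sum_prod_type]
    apply Finset.sum_congr rfl; intro j _
    rcases hj : φ j with a | k
    · simp [hj]
    · simp [hj, ee]
  have h5 : av (fun t => nu S A m (st φ (ee t)))
      = av (fun t : {p : Fin d × Fin M // φ p.1 = Sum.inr ()} → Dg m =>
        nu S A m (∑ p : {p : Fin d × Fin M // φ p.1 = Sum.inr ()}, Val (idx p) (t p))) := by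
    rw [← av_restrict (fun p : Fin d × Fin M => φ p.1 = Sum.inr ())
      (fun t : {p : Fin d × Fin M // φ p.1 = Sum.inr ()} → Dg m =>
        nu S A m (∑ p : {p : Fin d × Fin M // φ p.1 = Sum.inr ()}, Val (idx p) (t p)))]
    congr 1
    funext t
    rw [hst]
  have h6 := hdec A hA {p : Fin d × Fin M // φ p.1 = Sum.inr ()} (fun p => Val (idx p)) ?_
  · have h7 : M ≤ Fintype.card {p : Fin d × Fin M // φ p.1 = Sum.inr ()} := by
      have : Fintype.card (Fin M) ≤ Fintype.card {p : Fin d × Fin M // φ p.1 = Sum.inr ()} := by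
        apply Fintype.card_le_of_injective
          (fun i : Fin M => (⟨(j0, i), hj0⟩ : {p : Fin d × Fin M // φ p.1 = Sum.inr ()}))
        intro a b hab
        simpa using hab
      simpa using this
    have h8 : (C / K) ^ (Fintype.card {p : Fin d × Fin M // φ p.1 = Sum.inr ()})
        ≤ (C / K) ^ M := pow_le_pow_of_le_one hρ0 hρ1.le h7
    rw [h5] at hφ
    have h9 : av (fun t : {p : Fin d × Fin M // φ p.1 = Sum.inr ()} → Dg m =>
        nu S A m (∑ p : {p : Fin d × Fin M // φ p.1 = Sum.inr ()}, Val (idx p) (t p)))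
        ≤ (C / K) ^ (Fintype.card {p : Fin d × Fin M // φ p.1 = Sum.inr ()}) := by
      unfold av
      rw [div_pow, Fintype.card_fun]
      push_cast
      exact div_le_div_of_nonneg_right h6 (by positivity)
    linarith
  · intro t ht
    exact hzero _ (inS_of m Val (fun p : {p : Fin d × Fin M // φ p.1 = Sum.inr ()} => idx p)
      (fun a b hab => Subtype.ext (hidx hab)) t ht)

end dyn

end Pool.Agent.H82.KRec
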