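import Pool.Agent.H82.KRec.Form

/-!
Tensor products of bounds for the weighted multiple correlation sums.
-/

namespace Pool.Agent.H82.KRec

open Finset MeasureTheory
open scoped Pointwise

universe u

set_option linter.unusedSectionVars false
set_option linter.unusedVariables false

lemma sum_piFinset_succ {G M : Type*} [DecidableEq G] [AddCommMonoid M] (n : ℕ) (D : Finset G)
    (F : (Fin (n + 1) → G) → M) :
    ∑ s ∈ Fintype.piFinset (fun _ : Fin (n + 1) => D), F s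
      = ∑ s0 ∈ D, ∑ s' ∈ Fintype.piFinset (fun _ : Fin n => D),
          F (Fin.cons s0 s' : Fin (n + 1) → G) := by
  rw [← Finset.sum_product']
  apply Finset.sum_nbij' (fun s => (s 0, Fin.tail s))
    (fun p => (Fin.cons p.1 p.2 : Fin (n + 1) → G))
  · intro s hs
    rw [Fintype.mem_piFinset] at hs
    rw [Finset.mem_product, Fintype.mem_piFinset]
    exact ⟨hs 0, fun i => hs i.succ⟩
  · intro p hp
    rw [Finset.mem_product, Fintype.mem_piFinset] at hp
    rw [Fintype.mem_piFinset]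
    intro i
    refine Fin.cases ?_ (fun j => ?_) i
    · exact hp.1
    · exact hp.2 j
  · intro s _
    exact Fin.cons_self_tail s
  · intro p _
    simp [Fin.tail_cons]
  · intro s _
    simp only [Fin.cons_self_tail]

section ops

variable {X : Type u} [MeasurableSpace X] {μ : Measure X} [IsProbabilityMeasure μ] (S : Act μ)
variable {G : Type*} [AddCommGroup G] [DecidableEq G]

/-- bound for a weighted sum of translates -/
def OpB (D : Finset G) (c : G → ℂ) (a : G → ℤ) (b : ℝ) : Prop :=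
  ∀ v : X → ℂ, Bdd v →
    ∫ x, ‖∑ s ∈ D, c s * v (S.P (a s) x)‖ ^ 2 ∂μ ≤ b ^ 2 * ∫ x, ‖v x‖ ^ 2 ∂μ

lemma OpB_triv (D : Finset G) (c : G → ℂ) (a : G → ℤ) : OpB S D c a (∑ s ∈ D, ‖c s‖) := by
  intro v hv
  have h1 : ∀ x, ‖∑ s ∈ D, c s * v (S.P (a s) x)‖ ^ 2
      ≤ (∑ s ∈ D, ‖c s‖) * ∑ s ∈ D, ‖c s‖ * ‖v (S.P (a s) x)‖ ^ 2 := by
    intro x
    have h2 : ‖∑ s ∈ D, c s * v (S.P (a s) x)‖ ≤ ∑ s ∈ D, ‖c s‖ * ‖v (S.P (a s) x)‖ := by
      refine (norm_sum_le _ _).trans (le_of_eq ?_)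
      exact Finset.sum_congr rfl fun s _ => norm_mul _ _
    refine (pow_le_pow_left₀ (norm_nonneg _) h2 2).trans ?_
    apply Finset.sum_sq_le_sum_mul_sum_of_sq_le_mul
    · exact fun s _ => norm_nonneg _
    · exact fun s _ => by positivity
    · exact fun s _ => le_of_eq (by ring)
  have hint : ∀ s ∈ D, Integrable (fun x => ‖c s‖ * ‖v (S.P (a s) x)‖ ^ 2) μ := fun s _ =>
    ((hv.comp S (a s)).integrable_norm_sq μ).const_mul _
  have h3 : ∫ x, ‖∑ s ∈ D, c s * v (S.P (a s) x)‖ ^ 2 ∂μ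
      ≤ ∫ x, (∑ s ∈ D, ‖c s‖) * ∑ s ∈ D, ‖c s‖ * ‖v (S.P (a s) x)‖ ^ 2 ∂μ := by
    refine integral_mono ?_ ?_ h1
    · exact (Bdd.sum D fun s _ => (Bdd.const (c s)).mul (hv.comp S (a s))).integrable_norm_sq μ
    · exact (integrable_finsetSum D hint).const_mul _
  refine h3.trans (le_of_eq ?_)
  rw [integral_const_mul, integral_finsetSum D hint]
  have h4 : ∀ s, ∫ x, ‖c s‖ * ‖v (S.P (a s) x)‖ ^ 2 ∂μ = ‖c s‖ * ∫ x, ‖v x‖ ^ 2 ∂μ := by
    intro s
    rw [integral_const_mul, S.integral_comp (a s) (g := fun x => ‖v x‖ ^ 2)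
      (hv.integrable_norm_sq μ).aestronglyMeasurable]
  simp only [h4]
  rw [← Finset.sum_mul]
  ring

/-- products of commuting operators -/
theorem OpB_prod (D : Finset G) : ∀ (n : ℕ) (c : Fin n → G → ℂ) (a : Fin n → G → ℤ)
    (b : Fin n → ℝ), (∀ i, 0 ≤ b i) → (∀ i, OpB S D (c i) (a i) (b i)) → ∀ v : X → ℂ, Bdd v →
    ∫ x, ‖∑ s ∈ Fintype.piFinset (fun _ : Fin n => D), (∏ i, c i (s i)) *
      v (S.P (∑ i, a i (s i)) x)‖ ^ 2 ∂μ ≤ (∏ i, b i) ^ 2 * ∫ x, ‖v x‖ ^ 2 ∂μ := by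
  intro n
  induction n with
  | zero =>
    intro c a b hb h v hv
    simp [S.zero]
  | succ n ih =>
    intro c a b hb h v hv
    set V : X → ℂ := fun y => ∑ s' ∈ Fintype.piFinset (fun _ : Fin n => D),
      (∏ i : Fin n, c i.succ (s' i)) * v (S.P (∑ i : Fin n, a i.succ (s' i)) y) with hV
    have hVb : Bdd V := Bdd.sum _ fun s' _ => (Bdd.const _).mul (hv.comp S _)
    have h1 : ∀ x, ∑ s ∈ Fintype.piFinset (fun _ : Fin (n + 1) => D), (∏ i, c i (s i)) *
        v (S.P (∑ i, a i (s i)) x) = ∑ s0 ∈ D, c 0 s0 * V (S.P (a 0 s0) x) := by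
      intro x
      rw [sum_piFinset_succ]
      apply Finset.sum_congr rfl
      intro s0 _
      rw [hV]
      simp only
      rw [Finset.mul_sum]
      apply Finset.sum_congr rfl
      intro s' _
      rw [Fin.prod_univ_succ, Fin.sum_univ_succ]
      simp only [Fin.cons_zero, Fin.cons_succ]
      rw [← S.add, add_comm (∑ i : Fin n, a i.succ (s' i)) (a 0 s0)]
      ring
    simp only [h1]
    refine (h 0 V hVb).trans ?_
    have h2 := ih (fun i => c i.succ) (fun i => a i.succ) (fun i => b i.succ)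
      (fun i => hb i.succ) (fun i => h i.succ) v hv
    rw [Fin.prod_univ_succ]
    calc b 0 ^ 2 * ∫ x, ‖V x‖ ^ 2 ∂μ
        ≤ b 0 ^ 2 * ((∏ i : Fin n, b i.succ) ^ 2 * ∫ x, ‖v x‖ ^ 2 ∂μ) :=
          mul_le_mul_of_nonneg_left h2 (sq_nonneg _)
      _ = _ := by ring

/-- admissible one-block bounds for the sums with `r + 3` terms -/
def Bd (D : Finset G) : ℕ → (G → ℂ) → ℝ → Prop
  | 0, w, C => 0 ≤ C ∧ ∃ b : G → ℝ, (∀ σ, 0 ≤ b σ) ∧
      (∀ σ, ∀ lam : G →+ ℤ, OpB S D (fun s => w s * (starRingEnd ℂ) (w (σ - s)))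
        (fun s => lam (σ - s - s)) (b σ)) ∧ ∑ σ ∈ D + D, b σ ≤ C ^ 2
  | r + 1, w, C => 0 ≤ C ∧ ∃ b : G → ℝ,
      (∀ h, Bd D r (fun s => w s * (starRingEnd ℂ) (w (s + h))) (b h)) ∧
      ∑ h ∈ D - D, b h ≤ C ^ 2

lemma Bd.nonneg {D : Finset G} {r : ℕ} {w : G → ℂ} {C : ℝ} (h : Bd S D r w C) : 0 ≤ C := by
  cases r with
  | zero => exact h.1
  | succ r => exact h.1

/-- the additive map of a product -/
def LamProd {n : ℕ} (lam : Fin n → G →+ ℤ) : (Fin n → G) →+ ℤ :=
  ∑ i, (lam i).comp (Pi.evalAddMonoidHom (fun _ => G) i)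

lemma LamProd_apply {n : ℕ} (lam : Fin n → G →+ ℤ) (s : Fin n → G) :
    LamProd lam s = ∑ i, lam i (s i) := by
  unfold LamProd
  rw [AddMonoidHom.finsetSum_apply]
  rfl

/-- **the tensor power estimate** -/
theorem multi (D : Finset G) (n : ℕ) (lam : Fin n → G →+ ℤ) : ∀ (r : ℕ) (w : Fin n → G → ℂ)
    (C : Fin n → ℝ), (∀ i s, s ∉ D → w i s = 0) → (∀ i, Bd S D r (w i) (C i)) →
    ∀ f : ℕ → X → ℂ, (∀ j, BM (f j)) →
    ‖∑ s ∈ Fintype.piFinset (fun _ : Fin n => D), (∏ i, w i (s i)) *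
      ∫ x, ∏ j ∈ range (r + 3), f j (S.P (j * LamProd lam s) x) ∂μ‖ ≤ ∏ i, C i := by
  intro r
  induction r with
  | zero =>
    intro w C hw hB f hf
    have hC : ∀ i, 0 ≤ C i := fun i => (hB i).1
    choose b hb0 hop hsum using fun i => (hB i).2
    have h1 := three S (LamProd lam) (fun s => ∏ i, w i (s i))
      (Fintype.piFinset (fun _ : Fin n => D)) (Fintype.piFinset (fun _ : Fin n => D + D))
      ?_ ?_ f hf (fun σ => ∏ i, b i (σ i)) ?_ ?_
    · have h2 : ∑ σ ∈ Fintype.piFinset (fun _ : Fin n => D + D), ∏ i, b i (σ i)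
          ≤ (∏ i, C i) ^ 2 := by
        rw [← Finset.prod_univ_sum, ← Finset.prod_pow]
        apply Finset.prod_le_prod
        · exact fun i _ => Finset.sum_nonneg fun σ _ => hb0 i σ
        · exact fun i _ => hsum i
      exact (sq_le_sq₀ (norm_nonneg _) (Finset.prod_nonneg fun i _ => hC i)).1 (h1.trans h2)
    · intro s hs
      rw [Fintype.mem_piFinset] at hs
      push Not at hs
      obtain ⟨i, hi⟩ := hs
      exact Finset.prod_eq_zero (Finset.mem_univ i) (hw i _ hi)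
    · intro s hs s' hs'
      rw [Fintype.mem_piFinset] at hs hs' ⊢
      exact fun i => Finset.add_mem_add (hs i) (hs' i)
    · exact fun σ _ => Finset.prod_nonneg fun i _ => hb0 i _
    · intro σ _ v hv
      have h3 := OpB_prod S D n (fun i s => w i s * (starRingEnd ℂ) (w i (σ i - s)))
        (fun i s => lam i (σ i - s - s)) (fun i => b i (σ i)) (fun i => hb0 i _)
        (fun i => hop i (σ i) (lam i)) v hv
      refine le_trans (le_of_eq ?_) h3
      congr 1
      funext x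
      congr 2
      apply Finset.sum_congr rfl
      intro s _
      rw [map_prod, ← Finset.prod_mul_distrib, LamProd_apply]
      rfl
  | succ r ih =>
    intro w C hw hB f hf
    have hC : ∀ i, 0 ≤ C i := fun i => (hB i).1
    choose b hb hsum using fun i => (hB i).2
    have h1 := vdc S (r + 3) (LamProd lam) (fun s => ∏ i, w i (s i))
      (Fintype.piFinset (fun _ : Fin n => D)) (Fintype.piFinset (fun _ : Fin n => D - D))
      ?_ ?_ f hf
    · have h2 : ∑ h ∈ Fintype.piFinset (fun _ : Fin n => D - D), ∏ i, b i (h i)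
          ≤ (∏ i, C i) ^ 2 := by
        rw [← Finset.prod_univ_sum, ← Finset.prod_pow]
        apply Finset.prod_le_prod
        · exact fun i _ => Finset.sum_nonneg fun h _ => (hb i h).nonneg S
        · exact fun i _ => hsum i
      refine (sq_le_sq₀ (norm_nonneg _) (Finset.prod_nonneg fun i _ => hC i)).1
        ((le_trans h1 ?_).trans h2)
      apply Finset.sum_le_sum
      intro h _
      have h3 := ih (fun i s => w i s * (starRingEnd ℂ) (w i (s + h i))) (fun i => b i (h i))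
        (fun i s hs => by rw [hw i s hs, zero_mul]) (fun i => hb i (h i))
        (vf S (r + 3) (LamProd lam h) f) (vf_BM S (r + 3) _ f hf)
      refine le_trans (le_of_eq ?_) h3
      congr 1
      apply Finset.sum_congr rfl
      intro s _
      rw [map_prod, ← Finset.prod_mul_distrib]
      rfl
    · intro s hs
      rw [Fintype.mem_piFinset] at hs
      push Not at hs
      obtain ⟨i, hi⟩ := hs
      exact Finset.prod_eq_zero (Finset.mem_univ i) (hw i _ hi)
    · intro s hs s' hs'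
      rw [Fintype.mem_piFinset] at hs hs' ⊢
      exact fun i => Finset.sub_mem_sub (hs' i) (hs i)

/-! ### one-block bounds -/

lemma total_zero (D : Finset G) (w : G → ℂ) (hw : ∀ s, s ∉ D → w s = 0) :
    ∑ σ ∈ D + D, ∑ s ∈ D, ‖w s * (starRingEnd ℂ) (w (σ - s))‖ = (∑ s ∈ D, ‖w s‖) ^ 2 := by
  rw [Finset.sum_comm, sq, Finset.sum_mul]
  apply Finset.sum_congr rfl
  intro s hs
  rw [sum_reflect D (D + D) (fun s' => ‖w s'‖) (fun s' hs' => by rw [hw s' hs', norm_zero]) s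
    (fun s' hs' => Finset.add_mem_add hs hs'), Finset.mul_sum]
  apply Finset.sum_congr rfl
  intro σ _
  rw [norm_mul, Complex.norm_conj]

lemma total_succ (D : Finset G) (w : G → ℂ) (hw : ∀ s, s ∉ D → w s = 0) :
    ∑ h ∈ D - D, ∑ s ∈ D, ‖w s * (starRingEnd ℂ) (w (s + h))‖ = (∑ s ∈ D, ‖w s‖) ^ 2 := by
  rw [Finset.sum_comm, sq, Finset.sum_mul]
  apply Finset.sum_congr rfl
  intro s hs
  rw [sum_shift D (D - D) (fun s' => ‖w s'‖) (fun s' hs' => by rw [hw s' hs', norm_zero]) s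
    (fun s' hs' => Finset.sub_mem_sub hs' hs), Finset.mul_sum]
  apply Finset.sum_congr rfl
  intro σ _
  rw [norm_mul, Complex.norm_conj]

theorem Bd_triv (D : Finset G) : ∀ (r : ℕ) (w : G → ℂ), (∀ s, s ∉ D → w s = 0) →
    Bd S D r w (∑ s ∈ D, ‖w s‖) := by
  intro r
  induction r with
  | zero =>
    intro w hw
    refine ⟨Finset.sum_nonneg fun _ _ => norm_nonneg _,
      fun σ => ∑ s ∈ D, ‖w s * (starRingEnd ℂ) (w (σ - s))‖,
      fun σ => Finset.sum_nonneg fun _ _ => norm_nonneg _, fun σ lam => OpB_triv S D _ _, ?_⟩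
    exact (total_zero D w hw).le
  | succ r ih =>
    intro w hw
    refine ⟨Finset.sum_nonneg fun _ _ => norm_nonneg _,
      fun h => ∑ s ∈ D, ‖w s * (starRingEnd ℂ) (w (s + h))‖,
      fun h => ih _ fun s hs => by rw [hw s hs, zero_mul], ?_⟩
    exact (total_succ D w hw).le

lemma sum_update_lt (H : Finset G) (b : G → ℝ) (h0 : G) (hh0 : h0 ∈ H) (c : ℝ) (hc : c < b h0) :
    ∑ h ∈ H, Function.update b h0 c h < ∑ h ∈ H, b h := by
  apply Finset.sum_lt_sum
  · intro h _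
    by_cases hh : h = h0
    · subst hh
      rw [Function.update_self]
      exact hc.le
    · rw [Function.update_of_ne hh]
  · exact ⟨h0, hh0, by rw [Function.update_self]; exact hc⟩

theorem Bd_gain_zero (D : Finset G) (w : G → ℂ) (hw : ∀ s, s ∉ D → w s = 0) (σ0 : G)
    (hσ0 : σ0 ∈ D + D) (c : ℝ) (hc0 : 0 ≤ c)
    (hop : ∀ lam : G →+ ℤ, OpB S D (fun s => w s * (starRingEnd ℂ) (w (σ0 - s)))
        (fun s => lam (σ0 - s - s)) c)
    (hlt : c < ∑ s ∈ D, ‖w s * (starRingEnd ℂ) (w (σ0 - s))‖) :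
    ∃ C, C < ∑ s ∈ D, ‖w s‖ ∧ Bd S D 0 w C := by
  set b : G → ℝ := fun σ => ∑ s ∈ D, ‖w s * (starRingEnd ℂ) (w (σ - s))‖ with hb
  have h1 := sum_update_lt (D + D) b σ0 hσ0 c hlt
  have h2 : ∑ σ ∈ D + D, b σ = (∑ s ∈ D, ‖w s‖) ^ 2 := total_zero D w hw
  rw [h2] at h1
  have hb0 : ∀ σ, 0 ≤ Function.update b σ0 c σ := by
    intro σ
    by_cases hh : σ = σ0
    · subst hh
      rw [Function.update_self]
      exact hc0
    · rw [Function.update_of_ne hh]
      exact Finset.sum_nonneg fun _ _ => norm_nonneg _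
  have hN : 0 ≤ ∑ s ∈ D, ‖w s‖ := Finset.sum_nonneg fun _ _ => norm_nonneg _
  have hT : 0 ≤ ∑ σ ∈ D + D, Function.update b σ0 c σ := Finset.sum_nonneg fun σ _ => hb0 σ
  have hN' : 0 < ∑ s ∈ D, ‖w s‖ := by
    rcases hN.lt_or_eq with h | h
    · exact h
    · exfalso
      rw [← h] at h1
      norm_num at h1
      linarith
  refine ⟨Real.sqrt (∑ σ ∈ D + D, Function.update b σ0 c σ), (Real.sqrt_lt' hN').2 h1,
    Real.sqrt_nonneg _, Function.update b σ0 c, hb0, ?_, (Real.sq_sqrt hT).ge⟩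
  intro σ lam
  by_cases hh : σ = σ0
  · subst hh
    rw [Function.update_self]
    exact hop lam
  · rw [Function.update_of_ne hh]
    exact OpB_triv S D _ _

theorem Bd_gain_succ (D : Finset G) (r : ℕ) (w : G → ℂ) (hw : ∀ s, s ∉ D → w s = 0) (h0 : G)
    (hh0 : h0 ∈ D - D) (c : ℝ)
    (hB : Bd S D r (fun s => w s * (starRingEnd ℂ) (w (s + h0))) c)
    (hlt : c < ∑ s ∈ D, ‖w s * (starRingEnd ℂ) (w (s + h0))‖) :
    ∃ C, C < ∑ s ∈ D, ‖w s‖ ∧ Bd S D (r + 1) w C := by
  set b : G → ℝ := fun h => ∑ s ∈ D, ‖w s * (starRingEnd ℂ) (w (s + h))‖ with hb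
  have h1 := sum_update_lt (D - D) b h0 hh0 c hlt
  have h2 : ∑ h ∈ D - D, b h = (∑ s ∈ D, ‖w s‖) ^ 2 := total_succ D w hw
  rw [h2] at h1
  have hBd : ∀ h, Bd S D r (fun s => w s * (starRingEnd ℂ) (w (s + h)))
      (Function.update b h0 c h) := by
    intro h
    by_cases hh : h = h0
    · subst hh
      rw [Function.update_self]
      exact hB
    · rw [Function.update_of_ne hh]
      exact Bd_triv S D r _ fun s hs => by rw [hw s hs, zero_mul]
  have hN : 0 ≤ ∑ s ∈ D, ‖w s‖ := Finset.sum_nonneg fun _ _ => norm_nonneg _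
  have hT : 0 ≤ ∑ h ∈ D - D, Function.update b h0 c h :=
    Finset.sum_nonneg fun h _ => (hBd h).nonneg S
  have hN' : 0 < ∑ s ∈ D, ‖w s‖ := by
    rcases hN.lt_or_eq with h | h
    · exact h
    · exfalso
      rw [← h] at h1
      norm_num at h1
      linarith
  exact ⟨Real.sqrt (∑ h ∈ D - D, Function.update b h0 c h), (Real.sqrt_lt' hN').2 h1,
    Real.sqrt_nonneg _, Function.update b h0 c, hBd, (Real.sq_sqrt hT).ge⟩

end ops

end Pool.Agent.H82.KRec
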