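import Pool.Agent.H82.KRec.Prod

/-!
The block weights and the gain over the trivial bound.
-/

namespace Pool.Agent.H82.KRec

open Finset MeasureTheory
open scoped Pointwise

universe u

set_option linter.unusedSectionVars false
set_option linter.unusedVariables false

/-- the digits of a block -/
def DD (m : ℕ) : Finset (ℤ × (Fin m → ℤ)) :=
  ({0, 1, 3, 4} : Finset ℤ) ×ˢ Fintype.piFinset (fun _ => ({0, 1} : Finset ℤ))

lemma mem_DD {m : ℕ} {s : ℤ × (Fin m → ℤ)} :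
    s ∈ DD m ↔ (s.1 = 0 ∨ s.1 = 1 ∨ s.1 = 3 ∨ s.1 = 4) ∧ ∀ l, s.2 l = 0 ∨ s.2 l = 1 := by
  unfold DD
  rw [Finset.mem_product, Fintype.mem_piFinset]
  simp

open Classical in
/-- the weights -/
noncomputable def wt (m t : ℕ) (z : ℂ) (s : ℤ × (Fin m → ℤ)) : ℂ :=
  if s ∈ DD m ∧ (∀ l : Fin m, t ≤ (l : ℕ) → s.2 l = 0) then
    (if s.1 = 4 ∧ (∀ l : Fin m, (l : ℕ) < t → s.2 l = 1) then z else 1) else 0

lemma wt_off (m t : ℕ) (z : ℂ) (s : ℤ × (Fin m → ℤ)) (hs : s ∉ DD m) : wt m t z s = 0 := by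
  unfold wt
  rw [if_neg]
  exact fun h => hs h.1

/-- the direction of a coordinate -/
def dir {m : ℕ} (l : Fin m) : ℤ × (Fin m → ℤ) := (0, Pi.single l 1)

lemma wt_step (m t : ℕ) (ht : t < m) (z : ℂ) (s : ℤ × (Fin m → ℤ)) :
    wt m (t + 1) z s * (starRingEnd ℂ) (wt m (t + 1) z (s + dir ⟨t, ht⟩))
      = wt m t ((starRingEnd ℂ) z) s := by
  classical
  have hne : ∀ l : Fin m, l ≠ ⟨t, ht⟩ → (s + dir ⟨t, ht⟩).2 l = s.2 l := by
    intro l hl
    show s.2 l + (Pi.single (⟨t, ht⟩ : Fin m) (1 : ℤ) : Fin m → ℤ) l = s.2 l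
    rw [Pi.single_eq_of_ne hl, add_zero]
  have heq : (s + dir ⟨t, ht⟩).2 ⟨t, ht⟩ = s.2 ⟨t, ht⟩ + 1 := by
    show s.2 _ + (Pi.single (⟨t, ht⟩ : Fin m) (1 : ℤ) : Fin m → ℤ) _ = _
    rw [Pi.single_eq_same]
  have hfst : (s + dir ⟨t, ht⟩).1 = s.1 := add_zero _
  by_cases h : s ∈ DD m ∧ (∀ l : Fin m, t ≤ (l : ℕ) → s.2 l = 0)
  · obtain ⟨h1, h2⟩ := h
    have h3 := mem_DD.1 h1
    have hst : s.2 ⟨t, ht⟩ = 0 := h2 _ le_rfl
    have h4 : wt m (t + 1) z s = 1 := by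
      unfold wt
      rw [if_pos ⟨h1, fun l hl => h2 l (by omega)⟩, if_neg]
      rintro ⟨_, h5⟩
      have := h5 ⟨t, ht⟩ (Nat.lt_succ_self t)
      rw [hst] at this
      exact absurd this (by norm_num)
    have h6 : s + dir ⟨t, ht⟩ ∈ DD m ∧
        (∀ l : Fin m, t + 1 ≤ (l : ℕ) → (s + dir ⟨t, ht⟩).2 l = 0) := by
      constructor
      · rw [mem_DD, hfst]
        refine ⟨h3.1, fun l => ?_⟩
        by_cases hl : l = ⟨t, ht⟩
        · subst hl
          right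
          rw [heq, hst]
          norm_num
        · rw [hne l hl]
          exact h3.2 l
      · intro l hl
        rw [hne l (by rintro rfl; simp at hl)]
        exact h2 l (by omega)
    have h7 : ((s + dir ⟨t, ht⟩).1 = 4 ∧
        (∀ l : Fin m, (l : ℕ) < t + 1 → (s + dir ⟨t, ht⟩).2 l = 1)) ↔
        (s.1 = 4 ∧ (∀ l : Fin m, (l : ℕ) < t → s.2 l = 1)) := by
      rw [hfst]
      constructor
      · rintro ⟨h8, h9⟩
        refine ⟨h8, fun l hl => ?_⟩
        have := h9 l (by omega)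
        rwa [hne l (by rintro rfl; simp at hl)] at this
      · rintro ⟨h8, h9⟩
        refine ⟨h8, fun l hl => ?_⟩
        by_cases hl' : l = ⟨t, ht⟩
        · subst hl'
          rw [heq, hst]
          norm_num
        · rw [hne l hl']
          apply h9
          have : (l : ℕ) ≠ t := fun hcon => hl' (Fin.ext hcon)
          omega
    have h12 : s ∈ DD m ∧ (∀ l : Fin m, t ≤ (l : ℕ) → s.2 l = 0) := ⟨h1, h2⟩
    rw [h4, one_mul]
    unfold wt
    rw [if_pos h6, if_pos h12]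
    by_cases h10 : (s.1 = 4 ∧ (∀ l : Fin m, (l : ℕ) < t → s.2 l = 1))
    · rw [if_pos h10, if_pos (h7.2 h10)]
    · rw [if_neg h10, if_neg fun h11 => h10 (h7.1 h11), map_one]
  · have h1 : wt m t ((starRingEnd ℂ) z) s = 0 := by
      unfold wt
      rw [if_neg h]
    rw [h1]
    by_cases h2 : s ∈ DD m ∧ (∀ l : Fin m, t + 1 ≤ (l : ℕ) → s.2 l = 0)
    · have h3 := mem_DD.1 h2.1
      have h4 : s.2 ⟨t, ht⟩ = 1 := by
        rcases h3.2 ⟨t, ht⟩ with h5 | h5
        · exfalso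
          apply h
          refine ⟨h2.1, fun l hl => ?_⟩
          by_cases hl' : l = ⟨t, ht⟩
          · rw [hl']; exact h5
          · apply h2.2
            have : (l : ℕ) ≠ t := fun hcon => hl' (Fin.ext hcon)
            omega
        · exact h5
      rw [wt_off m (t + 1) z (s + dir ⟨t, ht⟩), map_zero, mul_zero]
      intro h6
      have h7 := (mem_DD.1 h6).2 ⟨t, ht⟩
      rw [heq, h4] at h7
      norm_num at h7
    · have h3 : wt m (t + 1) z s = 0 := by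
        unfold wt
        rw [if_neg h2]
      rw [h3, zero_mul]

lemma sum_DD {M : Type*} [AddCommMonoid M] (m : ℕ) (F : ℤ × (Fin m → ℤ) → M)
    (hF : ∀ a x, x ≠ 0 → F (a, x) = 0) :
    ∑ s ∈ DD m, F s = F (0, 0) + (F (1, 0) + (F (3, 0) + F (4, 0))) := by
  have h1 : ∀ a : ℤ, ∑ x ∈ Fintype.piFinset (fun _ : Fin m => ({0, 1} : Finset ℤ)), F (a, x)
      = F (a, 0) := by
    intro a
    apply Finset.sum_eq_single
    · intro x _ hx
      exact hF a x hx
    · intro h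
      exfalso
      apply h
      rw [Fintype.mem_piFinset]
      intro i
      simp
  unfold DD
  rw [Finset.sum_product]
  simp only [h1]
  rw [Finset.sum_insert (by decide), Finset.sum_insert (by decide), Finset.sum_insert (by decide),
    Finset.sum_singleton]

section

variable {X : Type u} [MeasurableSpace X] {μ : Measure X} [IsProbabilityMeasure μ] (S : Act μ)

lemma para (z1 z2 z3 z4 : ℂ) :
    ‖z1 + (z2 + (z3 + z4))‖ ^ 2 + ‖z2 - z3‖ ^ 2 + ‖z3 - z4‖ ^ 2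
      ≤ 4 * (‖z1‖ ^ 2 + ‖z2‖ ^ 2 + ‖z3‖ ^ 2 + ‖z4‖ ^ 2) := by
  simp only [← Complex.normSq_eq_norm_sq, Complex.normSq_apply, Complex.add_re, Complex.add_im,
    Complex.sub_re, Complex.sub_im]
  nlinarith [sq_nonneg (z1.re - z2.re), sq_nonneg (z1.im - z2.im), sq_nonneg (z1.re - z3.re),
    sq_nonneg (z1.im - z3.im), sq_nonneg (z1.re - z4.re), sq_nonneg (z1.im - z4.im),
    sq_nonneg (z2.re - z4.re), sq_nonneg (z2.im - z4.im)]

lemma three_sq (a b c : ℂ) : ‖a + b + c‖ ^ 2 ≤ 5 * (‖a‖ ^ 2 + ‖b‖ ^ 2 / 2 + ‖c‖ ^ 2 / 2) := by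
  simp only [← Complex.normSq_eq_norm_sq, Complex.normSq_apply, Complex.add_re, Complex.add_im]
  nlinarith [sq_nonneg (2 * a.re - b.re), sq_nonneg (2 * a.im - b.im),
    sq_nonneg (2 * a.re - c.re), sq_nonneg (2 * a.im - c.im), sq_nonneg (b.re - c.re),
    sq_nonneg (b.im - c.im)]

omit [IsProbabilityMeasure μ] in
lemma int_add3 {f g h : X → ℝ} (hf : Integrable f μ) (hg : Integrable g μ) (hh : Integrable h μ) :
    Integrable (fun x => f x + g x + h x) μ ∧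
    ∫ x, (f x + g x + h x) ∂μ = ∫ x, f x ∂μ + ∫ x, g x ∂μ + ∫ x, h x ∂μ := by
  have h1 : Integrable (fun x => f x + g x) μ := hf.add hg
  exact ⟨h1.add hh, by rw [integral_add h1 hh, integral_add hf hg]⟩

omit [IsProbabilityMeasure μ] in
lemma int_add4 {f g h k : X → ℝ} (hf : Integrable f μ) (hg : Integrable g μ)
    (hh : Integrable h μ) (hk : Integrable k μ) :
    Integrable (fun x => f x + g x + h x + k x) μ ∧
    ∫ x, (f x + g x + h x + k x) ∂μ = ∫ x, f x ∂μ + ∫ x, g x ∂μ + ∫ x, h x ∂μ + ∫ x, k x ∂μ := by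
  obtain ⟨h1, h2⟩ := int_add3 hf hg hh
  exact ⟨h1.add hk, by rw [integral_add h1 hk, h2]⟩

/-- the four-term operator -/
lemma four_op (z : ℂ) (hz : ‖z‖ = 1) (hz2 : ‖1 - z ^ 2‖ ^ 2 = 3) (N : ℤ) (v : X → ℂ)
    (hv : Bdd v) :
    ∫ x, ‖(starRingEnd ℂ) z * v (S.P (4 * N) x) + (v (S.P (2 * N) x) + (v (S.P (-(2 * N)) x) +
      z * v (S.P (-(4 * N)) x)))‖ ^ 2 ∂μ ≤ (77 / 5) * ∫ x, ‖v x‖ ^ 2 ∂μ := by
  set I := ∫ x, ‖v x‖ ^ 2 ∂μ with hI
  set A := ∫ x, ‖v (S.P (2 * N) x) - v (S.P (-(2 * N)) x)‖ ^ 2 ∂μ with hA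
  set B := ∫ x, ‖v (S.P (-(2 * N)) x) - z * v (S.P (-(4 * N)) x)‖ ^ 2 ∂μ with hB
  have hc : ∀ k, Bdd (fun x => v (S.P k x)) := fun k => hv.comp S k
  have hint : ∀ k, Integrable (fun x => ‖v (S.P k x)‖ ^ 2) μ := fun k =>
    (hc k).integrable_norm_sq μ
  have hIk : ∀ k, ∫ x, ‖v (S.P k x)‖ ^ 2 ∂μ = I := fun k =>
    S.integral_comp k (g := fun x => ‖v x‖ ^ 2) (hv.integrable_norm_sq μ).aestronglyMeasurable
  have hA1 : Bdd (fun x => v (S.P (2 * N) x) - v (S.P (-(2 * N)) x)) := (hc _).sub (hc _)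
  have hB1 : Bdd (fun x => v (S.P (-(2 * N)) x) - z * v (S.P (-(4 * N)) x)) :=
    (hc _).sub ((Bdd.const z).mul (hc _))
  -- first inequality
  have h1 : ∫ x, ‖(starRingEnd ℂ) z * v (S.P (4 * N) x) + (v (S.P (2 * N) x) +
      (v (S.P (-(2 * N)) x) + z * v (S.P (-(4 * N)) x)))‖ ^ 2 ∂μ + A + B ≤ 16 * I := by
    have hF : Bdd (fun x => (starRingEnd ℂ) z * v (S.P (4 * N) x) + (v (S.P (2 * N) x) +
      (v (S.P (-(2 * N)) x) + z * v (S.P (-(4 * N)) x)))) :=
      ((Bdd.const _).mul (hc _)).add ((hc _).add ((hc _).add ((Bdd.const z).mul (hc _))))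
    obtain ⟨i1, i2⟩ := int_add3 (hF.integrable_norm_sq μ) (hA1.integrable_norm_sq μ)
      (hB1.integrable_norm_sq μ)
    rw [← hA, ← hB] at i2
    rw [← i2]
    obtain ⟨i3, i4⟩ := int_add4 (hint (4 * N)) (hint (2 * N)) (hint (-(2 * N)))
      (hint (-(4 * N)))
    rw [hIk, hIk, hIk, hIk] at i4
    have h2 : 16 * I = ∫ x, 4 * (‖v (S.P (4 * N) x)‖ ^ 2 + ‖v (S.P (2 * N) x)‖ ^ 2 +
        ‖v (S.P (-(2 * N)) x)‖ ^ 2 + ‖v (S.P (-(4 * N)) x)‖ ^ 2) ∂μ := by
      rw [integral_const_mul, i4]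
      ring
    rw [h2]
    apply integral_mono i1 (i3.const_mul 4)
    intro x
    have h3 := para ((starRingEnd ℂ) z * v (S.P (4 * N) x)) (v (S.P (2 * N) x))
      (v (S.P (-(2 * N)) x)) (z * v (S.P (-(4 * N)) x))
    rw [norm_mul, norm_mul z, Complex.norm_conj, hz, one_mul, one_mul] at h3
    exact h3
  -- second inequality
  have h4 : 3 * I ≤ 5 * (A + B) := by
    have hA' : A = ∫ x, ‖v (S.P (4 * N) x) - v x‖ ^ 2 ∂μ := by
      rw [hA, ← S.integral_comp (2 * N) (g := fun x =>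
        ‖v (S.P (2 * N) x) - v (S.P (-(2 * N)) x)‖ ^ 2)
        (hA1.integrable_norm_sq μ).aestronglyMeasurable]
      congr 1
      funext x
      rw [← S.add, ← S.add]
      have e1 : 2 * N + 2 * N = 4 * N := by ring
      have e2 : -(2 * N) + 2 * N = 0 := by ring
      rw [e1, e2, S.zero]
    have hB' : B = ∫ x, ‖v (S.P (2 * N) x) - z * v x‖ ^ 2 ∂μ := by
      rw [hB, ← S.integral_comp (4 * N) (g := fun x =>
        ‖v (S.P (-(2 * N)) x) - z * v (S.P (-(4 * N)) x)‖ ^ 2)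
        (hB1.integrable_norm_sq μ).aestronglyMeasurable]
      congr 1
      funext x
      rw [← S.add, ← S.add]
      have e1 : -(2 * N) + 4 * N = 2 * N := by ring
      have e2 : -(4 * N) + 4 * N = 0 := by ring
      rw [e1, e2, S.zero]
    have hq : Bdd (fun x => v (S.P (2 * N) x) - z * v x) := (hc _).sub ((Bdd.const z).mul hv)
    have hq2 : Bdd (fun x => v (S.P (2 * N) (S.P (2 * N) x)) - z * v (S.P (2 * N) x)) :=
      hq.comp S (2 * N)
    have hp : Bdd (fun x => v (S.P (4 * N) x) - v x) := (hc _).sub hv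
    have hB'' : B = ∫ x, ‖v (S.P (2 * N) (S.P (2 * N) x)) - z * v (S.P (2 * N) x)‖ ^ 2 ∂μ := by
      rw [hB', ← S.integral_comp (2 * N) (g := fun x => ‖v (S.P (2 * N) x) - z * v x‖ ^ 2)
        (hq.integrable_norm_sq μ).aestronglyMeasurable]
    obtain ⟨i1, i2⟩ := int_add3 (hp.integrable_norm_sq μ)
      ((hq2.integrable_norm_sq μ).div_const 2) ((hq.integrable_norm_sq μ).div_const 2)
    rw [integral_div, integral_div, ← hA', ← hB', ← hB''] at i2
    have h5 : 5 * (A + B) = ∫ x, 5 * (‖v (S.P (4 * N) x) - v x‖ ^ 2 +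
        ‖v (S.P (2 * N) (S.P (2 * N) x)) - z * v (S.P (2 * N) x)‖ ^ 2 / 2 +
        ‖v (S.P (2 * N) x) - z * v x‖ ^ 2 / 2) ∂μ := by
      rw [integral_const_mul, i2]
      ring
    rw [h5, hI, ← integral_const_mul]
    apply integral_mono
    · exact (hv.integrable_norm_sq μ).const_mul 3
    · exact i1.const_mul 5
    · intro x
      have h6 := three_sq (-(v (S.P (4 * N) x) - v x))
        (v (S.P (2 * N) (S.P (2 * N) x)) - z * v (S.P (2 * N) x))
        (z * (v (S.P (2 * N) x) - z * v x))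
      have h7 : -(v (S.P (4 * N) x) - v x) + (v (S.P (2 * N) (S.P (2 * N) x)) -
          z * v (S.P (2 * N) x)) + z * (v (S.P (2 * N) x) - z * v x) = (1 - z ^ 2) * v x := by
        have e : S.P (2 * N) (S.P (2 * N) x) = S.P (4 * N) x := by
          rw [← S.add]
          congr 1
          ring
        rw [e]
        ring
      rw [h7, norm_mul, mul_pow, hz2, norm_neg, norm_mul z, hz, one_mul] at h6
      exact h6
  linarith

/-- cube roots of unity other than one -/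
def Cube (z : ℂ) : Prop := ‖z‖ = 1 ∧ z ^ 2 + z + 1 = 0

lemma Cube.conj {z : ℂ} (h : Cube z) : Cube ((starRingEnd ℂ) z) := by
  refine ⟨by rw [Complex.norm_conj]; exact h.1, ?_⟩
  have := congrArg (starRingEnd ℂ) h.2
  simpa using this

lemma Cube.norm_three {z : ℂ} (h : Cube z) : ‖1 - z ^ 2‖ ^ 2 = 3 := by
  obtain ⟨h1, h2⟩ := h
  have h3 : 1 - z ^ 2 = 2 + z := by linear_combination -h2
  rw [h3]
  have hre : z.re = -1 / 2 ∧ z.im ^ 2 = 3 / 4 := by
    have h1 := congrArg Complex.re h2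
    have h2 := congrArg Complex.im h2
    simp [sq, Complex.mul_re, Complex.mul_im] at h1 h2
    have h4 : z.im * (2 * z.re + 1) = 0 := by linear_combination h2
    rcases mul_eq_zero.1 h4 with h5 | h5
    · rw [h5] at h1
      nlinarith [sq_nonneg (2 * z.re + 1)]
    · have h6 : z.re = -1 / 2 := by linarith
      refine ⟨h6, ?_⟩
      rw [h6] at h1
      nlinarith
  rw [← Complex.normSq_eq_norm_sq, Complex.normSq_apply]
  simp only [Complex.add_re, Complex.add_im, Complex.re_ofNat, Complex.im_ofNat]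
  rw [hre.1]
  nlinarith [hre.2]

theorem base_gain (m : ℕ) (z : ℂ) (hz : Cube z) :
    ∃ C, C < ∑ s ∈ DD m, ‖wt m 0 z s‖ ∧ Bd S (DD m) 0 (wt m 0 z) C := by
  classical
  have hval : ∀ a : ℤ, (a = 0 ∨ a = 1 ∨ a = 3 ∨ a = 4) →
      wt m 0 z (a, 0) = if a = 4 then z else 1 := by
    intro a ha
    unfold wt
    rw [if_pos]
    · by_cases h4 : a = 4
      · rw [if_pos ⟨h4, fun l hl => absurd hl (Nat.not_lt_zero _)⟩, if_pos h4]
      · rw [if_neg fun h => h4 h.1, if_neg h4]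
    · exact ⟨mem_DD.2 ⟨ha, fun l => Or.inl rfl⟩, fun l _ => rfl⟩
  have hzero : ∀ a x, x ≠ 0 → wt m 0 z (a, x) = 0 := by
    intro a x hx
    unfold wt
    rw [if_neg]
    rintro ⟨_, h⟩
    exact hx (funext fun l => h l (Nat.zero_le _))
  have w0 : wt m 0 z (0, 0) = 1 := by rw [hval 0 (by norm_num)]; norm_num
  have w1 : wt m 0 z (1, 0) = 1 := by rw [hval 1 (by norm_num)]; norm_num
  have w3 : wt m 0 z (3, 0) = 1 := by rw [hval 3 (by norm_num)]; norm_num
  have w4 : wt m 0 z (4, 0) = z := by rw [hval 4 (by norm_num)]; norm_num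
  have s0 : ((4, 0) : ℤ × (Fin m → ℤ)) - (0, 0) = (4, 0) := by ext <;> simp
  have s1 : ((4, 0) : ℤ × (Fin m → ℤ)) - (1, 0) = (3, 0) := by ext <;> simp
  have s3 : ((4, 0) : ℤ × (Fin m → ℤ)) - (3, 0) = (1, 0) := by ext <;> simp
  have s4 : ((4, 0) : ℤ × (Fin m → ℤ)) - (4, 0) = (0, 0) := by ext <;> simp
  apply Bd_gain_zero S (DD m) (wt m 0 z) (wt_off m 0 z) (4, 0) ?_ (Real.sqrt (77 / 5))
    (Real.sqrt_nonneg _)
  · intro lam v hv
    have h1 : ∀ x, ∑ s ∈ DD m, wt m 0 z s * (starRingEnd ℂ) (wt m 0 z ((4, 0) - s)) *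
        v (S.P (lam ((4, 0) - s - s)) x)
        = (starRingEnd ℂ) z * v (S.P (4 * lam (1, 0)) x) + (v (S.P (2 * lam (1, 0)) x) +
          (v (S.P (-(2 * lam (1, 0))) x) + z * v (S.P (-(4 * lam (1, 0))) x))) := by
      intro x
      rw [sum_DD m (fun s => wt m 0 z s * (starRingEnd ℂ) (wt m 0 z ((4, 0) - s)) *
        v (S.P (lam ((4, 0) - s - s)) x))
        (fun a y hy => by rw [hzero a y hy, zero_mul, zero_mul])]
      rw [s0, s1, s3, s4, w0, w1, w3, w4]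
      have l4 : lam ((4, 0) - (0, 0)) = 4 * lam (1, 0) := by
        have : ((4, 0) - (0, 0) : ℤ × (Fin m → ℤ)) = (4 : ℤ) • (1, 0) := by ext <;> simp
        rw [this, map_zsmul, smul_eq_mul]
      have l2 : lam ((3, 0) - (1, 0)) = 2 * lam (1, 0) := by
        have : ((3, 0) - (1, 0) : ℤ × (Fin m → ℤ)) = (2 : ℤ) • (1, 0) := by ext <;> simp
        rw [this, map_zsmul, smul_eq_mul]
      have l2' : lam ((1, 0) - (3, 0)) = -(2 * lam (1, 0)) := by
        have : ((1, 0) - (3, 0) : ℤ × (Fin m → ℤ)) = (-2 : ℤ) • (1, 0) := by ext <;> simp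
        rw [this, map_zsmul, smul_eq_mul]; ring
      have l4' : lam ((0, 0) - (4, 0)) = -(4 * lam (1, 0)) := by
        have : ((0, 0) - (4, 0) : ℤ × (Fin m → ℤ)) = (-4 : ℤ) • (1, 0) := by ext <;> simp
        rw [this, map_zsmul, smul_eq_mul]; ring
      have l4'' : lam (4, 0) = 4 * lam (1, 0) := by
        have : ((4, 0) : ℤ × (Fin m → ℤ)) = (4 : ℤ) • (1, 0) := by ext <;> simp
        rw [this, map_zsmul, smul_eq_mul]
      rw [s0, l4'', l2, l2', l4']
      simp only [map_one, one_mul, mul_one]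
    simp only [h1]
    rw [Real.sq_sqrt (by norm_num)]
    exact four_op S z hz.1 hz.norm_three _ v hv
  · rw [sum_DD m (fun s => ‖wt m 0 z s * (starRingEnd ℂ) (wt m 0 z ((4, 0) - s))‖)
        (fun a y hy => by rw [hzero a y hy, zero_mul, norm_zero])]
    rw [s0, s1, s3, s4, w0, w1, w3, w4]
    simp only [norm_mul, Complex.norm_conj, norm_one, hz.1, mul_one]
    rw [Real.sqrt_lt' (by norm_num)]
    norm_num
  · have : ((4, 0) : ℤ × (Fin m → ℤ)) = (0, 0) + (4, 0) := by ext <;> simp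
    rw [this]
    exact Finset.add_mem_add (mem_DD.2 ⟨by norm_num, fun l => Or.inl rfl⟩)
      (mem_DD.2 ⟨by norm_num, fun l => Or.inl rfl⟩)

theorem chain_gain (m : ℕ) : ∀ t, t ≤ m → ∀ z, Cube z →
    ∃ C, C < ∑ s ∈ DD m, ‖wt m t z s‖ ∧ Bd S (DD m) t (wt m t z) C := by
  intro t
  induction t with
  | zero => exact fun _ z hz => base_gain S m z hz
  | succ t ih =>
    intro ht z hz
    have ht' : t < m := ht
    obtain ⟨c, hc1, hc2⟩ := ih ht'.le _ hz.conj
    apply Bd_gain_succ S (DD m) t (wt m (t + 1) z) (wt_off m (t + 1) z) (dir ⟨t, ht'⟩) ?_ c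
    · simp only [wt_step m t ht' z]
      exact hc2
    · simp only [wt_step m t ht' z]
      exact hc1
    · have : (dir ⟨t, ht'⟩ : ℤ × (Fin m → ℤ)) = dir ⟨t, ht'⟩ - 0 := (sub_zero _).symm
      rw [this]
      refine Finset.sub_mem_sub (mem_DD.2 ⟨Or.inl rfl, fun l => ?_⟩)
        (mem_DD.2 ⟨Or.inl rfl, fun l => Or.inl rfl⟩)
      show (Pi.single (⟨t, ht'⟩ : Fin m) (1 : ℤ) : Fin m → ℤ) l = 0 ∨
        (Pi.single (⟨t, ht'⟩ : Fin m) (1 : ℤ) : Fin m → ℤ) l = 1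
      by_cases hl : l = ⟨t, ht'⟩
      · right; rw [hl, Pi.single_eq_same]
      · left; rw [Pi.single_eq_of_ne hl]

end

end Pool.Agent.H82.KRec
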